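import Mathlib
import Pool.Agent.Y512.Reduce

set_option autoImplicit false

/-!
# From symmetric sets of `Fin n → ℝ` to bodies with a centre in Euclidean space
-/

namespace Pool.Agent.Y512

open Set Topology

theorem covN_centre {n N : ℕ}
    (H : ∀ K : Set (Fin n → ℝ), Convex ℝ K → IsCompact K → (interior K).Nonempty →
      (∀ x ∈ K, -x ∈ K) → CovN N K)
    (K : Set (EuclideanSpace ℝ (Fin n))) (hK : Convex ℝ K) (hc : IsCompact K)
    (hi : (interior K).Nonempty) (c : EuclideanSpace ℝ (Fin n))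
    (hs : ∀ x ∈ K, (2 : ℝ) • c - x ∈ K) : CovN N K := by
  let A : EuclideanSpace ℝ (Fin n) ≃L[ℝ] (Fin n → ℝ) := EuclideanSpace.equiv (Fin n) ℝ
  apply covN_of_image A (-(A c))
  apply H
  · rintro _ ⟨x, hx, rfl⟩ _ ⟨y, hy, rfl⟩ s t hs ht hst
    refine ⟨s • x + t • y, hK hx hy hs ht hst, ?_⟩
    change A (s • x + t • y) + -(A c) = s • (A x + -(A c)) + t • (A y + -(A c))
    rw [map_add, map_smul, map_smul, smul_add, smul_add]
    have h1 : s • (-(A c)) + t • (-(A c)) = -(A c) := by rw [← add_smul, hst, one_smul]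
    nth_rewrite 1 [← h1]
    abel
  · exact hc.image (by fun_prop)
  · have : interior ((fun x => A x + -(A c)) '' K) = (fun x => A x + -(A c)) '' interior K := by
      have := (A.toHomeomorph.trans (Homeomorph.addRight (-(A c)))).image_interior K
      exact this.symm
    rw [this]
    exact hi.image _
  · rintro _ ⟨x, hx, rfl⟩
    refine ⟨(2 : ℝ) • c - x, hs x hx, ?_⟩
    change A ((2 : ℝ) • c - x) + -(A c) = -(A x + -(A c))
    rw [map_sub, map_smul, two_smul]
    abel

end Pool.Agent.Y512
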