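import Mathlib
import Pool.Agent.Y512.Exit

set_option autoImplicit false

/-!
# Checked certificates for the illumination of a point in dimension four

The point is `x / W` with an integer vector `x`; it is illuminated by the direction `T` if
`U x + u T` has gauge less than `U W` for some `u > 0`; a bound for the gauge comes from an explicit
representation by points of the body.
-/

namespace Pool.Agent.Y512.S4

open Set Topology

/-- an integer vector -/
structure Z4 where
  a : ℤ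
  b : ℤ
  c : ℤ
  d : ℤ

/-- the point `v / q` -/
structure Atom where
  v : Z4
  q : ℕ

/-- the real vector -/
def Z4.r (z : Z4) : Fin 4 → ℝ := ![(z.a : ℝ), z.b, z.c, z.d]

def Z4.neg (z : Z4) : Z4 := ⟨-z.a, -z.b, -z.c, -z.d⟩

theorem Z4.r_neg (z : Z4) : z.neg.r = -z.r := by
  funext i; fin_cases i <;> simp [Z4.r, Z4.neg]

def resid : List Atom → List ℤ → Z4 → Z4
  | A :: As, b :: bs, z =>
    resid As bs ⟨z.a - b * A.v.a, z.b - b * A.v.b, z.c - b * A.v.c, z.d - b * A.v.d⟩
  | _, _, z => z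

def cost : List Atom → List ℤ → ℕ
  | A :: As, b :: bs => b.natAbs * A.q + cost As bs
  | _, _ => 0

def nrm (r : Z4) : ℕ := r.a.natAbs + r.b.natAbs + r.c.natAbs + r.d.natAbs

def chk (U W : ℕ) (At : List Atom) (T x : Z4) (u : ℕ) (l : List ℤ) : Bool :=
  decide (0 < u) &&
  decide (cost At l + nrm (resid At l ⟨U * x.a + u * T.a, U * x.b + u * T.b,
    U * x.c + u * T.c, U * x.d + u * T.d⟩) < U * W)

/-! ### the gauge -/

/-- `x` belongs to `c K` -/
def InG (K : Set (Fin 4 → ℝ)) (c : ℝ) (x : Fin 4 → ℝ) : Prop := ∃ v ∈ K, x = c • v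

/-- what is known about the body -/
structure Basic (K : Set (Fin 4 → ℝ)) : Prop where
  conv : Convex ℝ K
  inte : (interior K).Nonempty
  symm : ∀ x ∈ K, -x ∈ K
  axis : ∀ i, (Pi.single i 1 : Fin 4 → ℝ) ∈ K

theorem Basic.zero_int {K : Set (Fin 4 → ℝ)} (h : Basic K) : (0 : Fin 4 → ℝ) ∈ interior K := by
  obtain ⟨c, hc⟩ := h.inte
  have := h.conv.combo_interior_self_mem_interior hc (h.symm c (interior_subset hc))
    (a := 1 / 2) (b := 1 / 2) (by norm_num) (by norm_num) (by norm_num)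
  simpa using this

theorem InG.add {K : Set (Fin 4 → ℝ)} (h : Basic K) {c d : ℝ} {x y : Fin 4 → ℝ} (hc : 0 ≤ c)
    (hd : 0 ≤ d) (hx : InG K c x) (hy : InG K d y) : InG K (c + d) (x + y) := by
  obtain ⟨v, hv, rfl⟩ := hx
  obtain ⟨w, hw, rfl⟩ := hy
  rcases (add_nonneg hc hd).eq_or_lt with h0 | h0
  · have e1 : c = 0 := by linarith
    have e2 : d = 0 := by linarith
    exact ⟨v, hv, by simp [e1, e2]⟩
  · refine ⟨(c / (c + d)) • v + (d / (c + d)) • w, h.conv hv hw (by positivity) (by positivity)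
      (by field_simp), ?_⟩
    rw [smul_add, smul_smul, smul_smul, mul_div_cancel₀ _ h0.ne', mul_div_cancel₀ _ h0.ne']

theorem InG.of_mem {K : Set (Fin 4 → ℝ)} (h : Basic K) {v : Fin 4 → ℝ} (hv : v ∈ K) (b : ℝ) :
    InG K |b| (b • v) := by
  rcases le_total 0 b with hb | hb
  · exact ⟨v, hv, by rw [abs_of_nonneg hb]⟩
  · exact ⟨-v, h.symm v hv, by rw [abs_of_nonpos hb, neg_smul_neg]⟩

theorem InG.int {K : Set (Fin 4 → ℝ)} (h : Basic K) {c D : ℝ} {x : Fin 4 → ℝ} (hc : 0 ≤ c)
    (hcD : c < D) (hx : InG K c x) : (1 / D) • x ∈ interior K := by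
  obtain ⟨v, hv, rfl⟩ := hx
  have hD : 0 < D := lt_of_le_of_lt hc hcD
  have := h.conv.combo_interior_self_mem_interior h.zero_int hv (a := 1 - c / D) (b := c / D)
    (by rw [sub_pos, div_lt_one hD]; exact hcD) (by positivity) (by ring)
  rw [smul_zero, zero_add] at this
  convert this using 1
  rw [smul_smul]
  congr 1
  ring

def AtomsIn (At : List Atom) (K : Set (Fin 4 → ℝ)) : Prop :=
  ∀ A ∈ At, 0 < A.q ∧ (1 / (A.q : ℝ)) • A.v.r ∈ K

theorem nrm_spec {K : Set (Fin 4 → ℝ)} (h : Basic K) (z : Z4) : InG K (nrm z) z.r := by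
  have e : z.r = ((z.a : ℝ) • (Pi.single 0 1 : Fin 4 → ℝ) + (z.b : ℝ) • Pi.single 1 1 +
      (z.c : ℝ) • Pi.single 2 1) + (z.d : ℝ) • Pi.single 3 1 := by
    funext i; fin_cases i <;> simp [Z4.r]
  have e2 : ((nrm z : ℕ) : ℝ) = |(z.a : ℝ)| + |(z.b : ℝ)| + |(z.c : ℝ)| + |(z.d : ℝ)| := by
    simp only [nrm, Nat.cast_add, Nat.cast_natAbs, Int.cast_abs]
  rw [e, e2]
  refine InG.add h (by positivity) (by positivity) (InG.add h (by positivity) (by positivity)
    (InG.add h (by positivity) (by positivity) ?_ ?_) ?_) ?_ <;>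
  exact InG.of_mem h (h.axis _) _

theorem resid_spec {K : Set (Fin 4 → ℝ)} (h : Basic K) :
    ∀ (At : List Atom) (l : List ℤ) (z : Z4), AtomsIn At K →
      InG K (cost At l + nrm (resid At l z) : ℕ) z.r := by
  intro At
  induction At with
  | nil =>
    intro l z _
    simpa [resid, cost] using nrm_spec h z
  | cons A As ih =>
    intro l z hA
    cases l with
    | nil => simpa [resid, cost] using nrm_spec h z
    | cons b bs =>
      have h1 := hA A (List.mem_cons_self)
      have h2 := ih bs ⟨z.a - b * A.v.a, z.b - b * A.v.b, z.c - b * A.v.c, z.d - b * A.v.d⟩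
        (fun A' hA' => hA A' (List.mem_cons_of_mem _ hA'))
      have hq : (0 : ℝ) < A.q := by exact_mod_cast h1.1
      have h3 := InG.of_mem h h1.2 ((b : ℝ) * A.q)
      have h4 := InG.add h (abs_nonneg _) (Nat.cast_nonneg _) h3 h2
      have e1 : z.r = ((b : ℝ) * A.q) • ((1 / (A.q : ℝ)) • A.v.r) +
          Z4.r ⟨z.a - b * A.v.a, z.b - b * A.v.b, z.c - b * A.v.c, z.d - b * A.v.d⟩ := by
        rw [smul_smul]
        have : (b : ℝ) * A.q * (1 / A.q) = b := by field_simp
        rw [this]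
        funext i; fin_cases i <;> simp [Z4.r]
      have e2 : ((cost (A :: As) (b :: bs) + nrm (resid (A :: As) (b :: bs) z) : ℕ) : ℝ) =
          |(b : ℝ) * A.q| + ((cost As bs + nrm (resid As bs ⟨z.a - b * A.v.a, z.b - b * A.v.b,
            z.c - b * A.v.c, z.d - b * A.v.d⟩) : ℕ) : ℝ) := by
        simp only [cost, resid, Nat.cast_add, Nat.cast_mul, Nat.cast_natAbs, Int.cast_abs]
        rw [abs_mul, abs_of_pos hq]
        ring
      rw [e1, e2]
      exact h4

theorem chk_spec {K : Set (Fin 4 → ℝ)} (h : Basic K) {U W : ℕ} {At : List Atom}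
    (hA : AtomsIn At K) {T x : Z4} {u : ℕ} {l : List ℤ}
    (hc : chk U W At T x u l = true) : Lit K T.r ((1 / (W : ℝ)) • x.r) := by
  simp only [chk, Bool.and_eq_true, decide_eq_true_eq] at hc
  obtain ⟨hu, hc⟩ := hc
  have h1 := resid_spec h At l ⟨U * x.a + u * T.a, U * x.b + u * T.b,
    U * x.c + u * T.c, U * x.d + u * T.d⟩ hA
  have hD : 0 < U * W := lt_of_le_of_lt (Nat.zero_le _) hc
  have hU : 0 < U := Nat.pos_of_mul_pos_right hD
  have hW : 0 < W := Nat.pos_of_mul_pos_left hD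
  have hwR : (0 : ℝ) < W := by exact_mod_cast hW
  have hUR : (0 : ℝ) < U := by exact_mod_cast hU
  have huR : (0 : ℝ) < u := by exact_mod_cast hu
  have hcR : ((cost At l + nrm (resid At l ⟨U * x.a + u * T.a, U * x.b + u * T.b,
    U * x.c + u * T.c, U * x.d + u * T.d⟩) : ℕ) : ℝ) < U * W := by exact_mod_cast hc
  have h2 := InG.int h (Nat.cast_nonneg _) hcR h1
  refine ⟨u / (U * W), by positivity, ?_⟩
  convert h2 using 1
  funext i
  fin_cases i <;> simp [Z4.r] <;> field_simp

theorem Lit.combo {K : Set (Fin 4 → ℝ)} (h : Basic K) {T x y : Fin 4 → ℝ} (hx : Lit K T x)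
    (hy : Lit K T y) {a b : ℝ} (ha : 0 ≤ a) (hb : 0 ≤ b) (hab : a + b = 1) :
    Lit K T (a • x + b • y) := by
  obtain ⟨τ, hτ, h1⟩ := hx
  obtain ⟨σ, hσ, h2⟩ := hy
  refine ⟨a * τ + b * σ, ?_, ?_⟩
  · rcases ha.eq_or_lt with h0 | h0
    · have : b = 1 := by linarith
      rw [← h0, this]; simpa using hσ
    · have := mul_pos h0 hτ
      have := mul_nonneg hb hσ.le
      linarith
  · have := h.conv.interior h1 h2 ha hb hab
    convert this using 1
    rw [smul_add, smul_add, smul_smul, smul_smul, add_smul]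
    abel

end Pool.Agent.Y512.S4
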