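import Mathlib
import Pool.Agent.Y512.S4.Check

set_option autoImplicit false

/-!
# Strip certificates for the squares of the four-dimensional cube

A square is cut into slabs, each slab into trapezoids; for each trapezoid one direction
illuminates the four vertices.
-/

namespace Pool.Agent.Y512.S4

open Set Topology

/-- the point with the coordinates `x`, `y` in the `q`-th square -/
def pt (W : ℤ) (q : ℕ) (x y : ℤ) : Z4 :=
  match q with
  | 0 => ⟨W, W, x, y⟩
  | 1 => ⟨W, -W, x, y⟩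
  | 2 => ⟨W, x, W, y⟩
  | 3 => ⟨W, x, -W, y⟩
  | 4 => ⟨W, x, y, W⟩
  | 5 => ⟨W, x, y, -W⟩
  | 6 => ⟨x, W, W, y⟩
  | 7 => ⟨x, W, -W, y⟩
  | 8 => ⟨x, W, y, W⟩
  | 9 => ⟨x, W, y, -W⟩
  | 10 => ⟨x, y, W, W⟩
  | 11 => ⟨x, y, W, -W⟩
  | 12 => ⟨W, W, y, x⟩
  | 13 => ⟨W, -W, y, x⟩
  | 14 => ⟨W, y, W, x⟩
  | 15 => ⟨W, y, -W, x⟩
  | 16 => ⟨W, y, x, W⟩
  | 17 => ⟨W, y, x, -W⟩
  | 18 => ⟨y, W, W, x⟩
  | 19 => ⟨y, W, -W, x⟩
  | 20 => ⟨y, W, x, W⟩
  | 21 => ⟨y, W, x, -W⟩
  | 22 => ⟨y, x, W, W⟩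
  | 23 => ⟨y, x, W, -W⟩
  | _ => ⟨x, y, W, W⟩

noncomputable def ptR (q : ℕ) (x y : ℝ) : Fin 4 → ℝ :=
  match q with
  | 0 => ![1, 1, x, y]
  | 1 => ![1, -1, x, y]
  | 2 => ![1, x, 1, y]
  | 3 => ![1, x, -1, y]
  | 4 => ![1, x, y, 1]
  | 5 => ![1, x, y, -1]
  | 6 => ![x, 1, 1, y]
  | 7 => ![x, 1, -1, y]
  | 8 => ![x, 1, y, 1]
  | 9 => ![x, 1, y, -1]
  | 10 => ![x, y, 1, 1]
  | 11 => ![x, y, 1, -1]
  | 12 => ![1, 1, y, x]
  | 13 => ![1, -1, y, x]
  | 14 => ![1, y, 1, x]
  | 15 => ![1, y, -1, x]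
  | 16 => ![1, y, x, 1]
  | 17 => ![1, y, x, -1]
  | 18 => ![y, 1, 1, x]
  | 19 => ![y, 1, -1, x]
  | 20 => ![y, 1, x, 1]
  | 21 => ![y, 1, x, -1]
  | 22 => ![y, x, 1, 1]
  | 23 => ![y, x, 1, -1]
  | _ => ![x, y, 1, 1]

theorem pt_r (W : ℕ) (hW : 0 < W) (q : ℕ) (x y : ℤ) :
    (1 / (W : ℝ)) • (pt W q x y).r = ptR q (x / W) (y / W) := by
  have hW' : (W : ℝ) ≠ 0 := by exact_mod_cast hW.ne'
  unfold pt ptR
  split <;> (funext m; fin_cases m <;> simp [Z4.r, hW'] <;> field_simp)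

theorem ptR_combo (q : ℕ) (x y x' y' a b : ℝ) (h : a + b = 1) :
    a • ptR q x y + b • ptR q x' y' = ptR q (a * x + b * x') (a * y + b * y') := by
  unfold ptR
  split <;> (funext m; fin_cases m <;> simp <;> linarith)

structure Cell where
  k : ℕ
  yl : ℤ
  yr : ℤ
  u1 : ℕ
  l1 : List ℤ
  u2 : ℕ
  l2 : List ℤ
  u3 : ℕ
  l3 : List ℤ
  u4 : ℕ
  l4 : List ℤ

structure Slab where
  x : ℤ
  cells : List Cell

/-- the check of one trapezoid -/
def cellOk (U W : ℕ) (At : List Atom) (D : List Z4) (q : ℕ) (a b yl yr : ℤ) (C : Cell) : Bool :=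
  match D[C.k]? with
  | some T =>
    decide (yl ≤ C.yl) && decide (yr ≤ C.yr) &&
    chk U W At T (pt W q a yl) C.u1 C.l1 && chk U W At T (pt W q a C.yl) C.u2 C.l2 &&
    chk U W At T (pt W q b yr) C.u3 C.l3 && chk U W At T (pt W q b C.yr) C.u4 C.l4
  | none => false

def cellsOk (U W : ℕ) (At : List Atom) (D : List Z4) (q : ℕ) (a b : ℤ) :
    List Cell → ℤ → ℤ → Bool
  | [], yl, yr => decide ((W : ℤ) ≤ yl) && decide ((W : ℤ) ≤ yr)
  | C :: Cs, yl, yr =>
    cellOk U W At D q a b yl yr C && cellsOk U W At D q a b Cs C.yl C.yr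

def slabsOk (U W : ℕ) (At : List Atom) (D : List Z4) (q : ℕ) : List Slab → ℤ → Bool
  | [], a => decide ((W : ℤ) ≤ a)
  | S :: Ss, a => decide (a < S.x) && cellsOk U W At D q a S.x S.cells (-W) (-W) &&
    slabsOk U W At D q Ss S.x

variable {K : Set (Fin 4 → ℝ)} {U W : ℕ} {At : List Atom} {D : List Z4} {q : ℕ}

theorem cellOk_spec (h : Basic K) (hW : 0 < W) (hA : AtomsIn At K) {a b yl yr : ℤ} {C : Cell}
    (hc : cellOk U W At D q a b yl yr C = true) {t y : ℝ} (ht0 : 0 ≤ t) (ht1 : t ≤ 1)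
    (hy1 : (1 - t) * yl + t * yr ≤ y) (hy2 : y ≤ (1 - t) * C.yl + t * C.yr) :
    ∃ T ∈ D, Lit K T.r (ptR q (((1 - t) * a + t * b) / W) (y / W)) := by
  unfold cellOk at hc
  cases hk : D[C.k]? with
  | none => rw [hk] at hc; simp at hc
  | some T =>
    rw [hk] at hc
    simp only [Bool.and_eq_true, decide_eq_true_eq] at hc
    obtain ⟨⟨⟨⟨⟨h1, h2⟩, c1⟩, c2⟩, c3⟩, c4⟩ := hc
    refine ⟨T, List.mem_of_getElem? hk, ?_⟩
    have l1 := chk_spec h hA c1
    have l2 := chk_spec h hA c2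
    have l3 := chk_spec h hA c3
    have l4 := chk_spec h hA c4
    rw [pt_r W hW] at l1 l2 l3 l4
    have hlow := Lit.combo h l1 l3 (a := 1 - t) (b := t) (by linarith) ht0 (by ring)
    have hup := Lit.combo h l2 l4 (a := 1 - t) (b := t) (by linarith) ht0 (by ring)
    rw [ptR_combo _ _ _ _ _ _ _ (by ring)] at hlow hup
    set lo := (1 - t) * (yl : ℝ) + t * yr with hlo
    set hi := (1 - t) * (C.yl : ℝ) + t * C.yr with hhi
    have hWR : (0 : ℝ) < W := by exact_mod_cast hW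
    rcases (hy1.trans hy2).eq_or_lt with heq | hlt
    · have hy : y = lo := le_antisymm (by linarith) hy1
      convert hlow using 2
      · ring
      · rw [hy, hlo]; ring
    · have hs := Lit.combo h hlow hup (a := (hi - y) / (hi - lo)) (b := (y - lo) / (hi - lo))
        (div_nonneg (by linarith) (by linarith)) (div_nonneg (by linarith) (by linarith))
        (by
          have : hi - lo ≠ 0 := by linarith
          field_simp
          ring)
      have hne : hi - lo ≠ 0 := by linarith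
      rw [ptR_combo _ _ _ _ _ _ _ (by field_simp; ring)] at hs
      convert hs using 2
      · field_simp
        ring
      · have e1 : (1 - t) * ((yl : ℝ) / W) + t * (yr / W) = lo / W := by rw [hlo]; ring
        have e2 : (1 - t) * ((C.yl : ℝ) / W) + t * (C.yr / W) = hi / W := by rw [hhi]; ring
        rw [e1, e2]
        field_simp
        ring

theorem cellsOk_spec (h : Basic K) (hW : 0 < W) (hA : AtomsIn At K) {a b : ℤ} {t y : ℝ}
    (ht0 : 0 ≤ t) (ht1 : t ≤ 1) (hyW : y ≤ W) :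
    ∀ (L : List Cell) (yl yr : ℤ), cellsOk U W At D q a b L yl yr = true →
      ((1 - t) * yl + t * yr < y ∨ (L ≠ [] ∧ (1 - t) * yl + t * yr ≤ y)) →
      ∃ T ∈ D, Lit K T.r (ptR q (((1 - t) * a + t * b) / W) (y / W)) := by
  intro L
  induction L with
  | nil =>
    intro yl yr hc hy
    exfalso
    simp only [cellsOk, Bool.and_eq_true, decide_eq_true_eq] at hc
    have h1 : (W : ℝ) ≤ yl := by exact_mod_cast hc.1
    have h2 : (W : ℝ) ≤ yr := by exact_mod_cast hc.2
    rcases hy with hy | hy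
    · have e1 := mul_le_mul_of_nonneg_left h1 (by linarith : (0 : ℝ) ≤ 1 - t)
      have e2 := mul_le_mul_of_nonneg_left h2 ht0
      linarith
    · exact hy.1 rfl
  | cons C Cs ih =>
    intro yl yr hc hy
    simp only [cellsOk, Bool.and_eq_true] at hc
    have hlow : (1 - t) * yl + t * yr ≤ y := by
      rcases hy with hy | hy
      · exact hy.le
      · exact hy.2
    rcases le_or_gt y ((1 - t) * C.yl + t * C.yr) with h1 | h1
    · exact cellOk_spec h hW hA hc.1 ht0 ht1 hlow h1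
    · exact ih C.yl C.yr hc.2 (Or.inl h1)

theorem slabsOk_spec (h : Basic K) (hW : 0 < W) (hA : AtomsIn At K) {x y : ℝ}
    (hxW : x ≤ W) (hy0 : -(W : ℝ) ≤ y) (hyW : y ≤ W) :
    ∀ (L : List Slab) (a : ℤ), slabsOk U W At D q L a = true →
      (a < x ∨ (L ≠ [] ∧ a ≤ x)) →
      ∃ T ∈ D, Lit K T.r (ptR q (x / W) (y / W)) := by
  intro L
  induction L with
  | nil =>
    intro a hc hx
    exfalso
    simp only [slabsOk, decide_eq_true_eq] at hc
    have h1 : (W : ℝ) ≤ a := by exact_mod_cast hc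
    rcases hx with hx | hx
    · linarith
    · exact hx.1 rfl
  | cons S Ss ih =>
    intro a hc hx
    simp only [slabsOk, Bool.and_eq_true, decide_eq_true_eq] at hc
    obtain ⟨⟨h1, h2⟩, h3⟩ := hc
    have h1R : (a : ℝ) < S.x := by exact_mod_cast h1
    have hax : (a : ℝ) ≤ x := by
      rcases hx with hx | hx
      · exact hx.le
      · exact hx.2
    rcases le_or_gt x S.x with hxs | hxs
    · have hd : (0 : ℝ) < S.x - a := by linarith
      have ht0 : 0 ≤ (x - a) / (S.x - a) := div_nonneg (by linarith) hd.le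
      have ht1 : (x - a) / (S.x - a) ≤ 1 := by rw [div_le_one hd]; linarith
      have hne : S.cells ≠ [] := by
        intro h0
        rw [h0] at h2
        simp only [cellsOk, Bool.and_eq_true, decide_eq_true_eq] at h2
        omega
      have := cellsOk_spec h hW hA ht0 ht1 hyW S.cells (-W) (-W) h2 (Or.inr ⟨hne, by
        push_cast
        linarith⟩)
      convert this using 5
      field_simp
      ring
    · exact ih S.x h3 (Or.inl hxs)

/-- the certificate of one square -/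
theorem square_spec (h : Basic K) (hW : 0 < W) (hA : AtomsIn At K) {L : List Slab}
    (hc : slabsOk U W At D q L (-W) = true) {x y : ℝ} (hx : |x| ≤ 1) (hy : |y| ≤ 1) :
    ∃ T ∈ D, Lit K T.r (ptR q x y) := by
  have hWR : (0 : ℝ) < W := by exact_mod_cast hW
  rw [abs_le] at hx hy
  have hne : L ≠ [] := by
    rintro rfl
    simp only [slabsOk, decide_eq_true_eq] at hc
    omega
  have := slabsOk_spec h hW hA (x := x * W) (y := y * W) (by nlinarith) (by nlinarith)
    (by nlinarith) L (-W) hc (Or.inr ⟨hne, by push_cast; nlinarith⟩)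
  rwa [mul_div_cancel_right₀ _ hWR.ne', mul_div_cancel_right₀ _ hWR.ne'] at this

theorem ptR_swap (i : ℕ) (hi : i < 12) (x y : ℝ) : ptR (i + 12) y x = ptR i x y := by
  interval_cases i <;> rfl

/-- up to the central symmetry there are `12` squares -/
theorem sq_key (z : Fin 4 → ℝ) (hz : ∀ m, |z m| ≤ 1) (i j : Fin 4) (hij : i < j)
    (hi : z i = 1) (hj : |z j| = 1) :
    ∃ r < 12, ∃ x y : ℝ, |x| ≤ 1 ∧ |y| ≤ 1 ∧ z = ptR r x y := by
  rcases (abs_eq zero_le_one).1 hj with hj | hj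
  all_goals fin_cases i <;> fin_cases j <;> first | (exfalso; revert hij; decide) | skip
  · exact ⟨0, by norm_num, z 2, z 3, hz _, hz _, by
      funext m; fin_cases m <;> simp [ptR] <;> assumption⟩
  · exact ⟨2, by norm_num, z 1, z 3, hz _, hz _, by
      funext m; fin_cases m <;> simp [ptR] <;> assumption⟩
  · exact ⟨4, by norm_num, z 1, z 2, hz _, hz _, by
      funext m; fin_cases m <;> simp [ptR] <;> assumption⟩
  · exact ⟨6, by norm_num, z 0, z 3, hz _, hz _, by
      funext m; fin_cases m <;> simp [ptR] <;> assumption⟩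
  · exact ⟨8, by norm_num, z 0, z 2, hz _, hz _, by
      funext m; fin_cases m <;> simp [ptR] <;> assumption⟩
  · exact ⟨10, by norm_num, z 0, z 1, hz _, hz _, by
      funext m; fin_cases m <;> simp [ptR] <;> assumption⟩
  · exact ⟨1, by norm_num, z 2, z 3, hz _, hz _, by
      funext m; fin_cases m <;> simp [ptR] <;> assumption⟩
  · exact ⟨3, by norm_num, z 1, z 3, hz _, hz _, by
      funext m; fin_cases m <;> simp [ptR] <;> assumption⟩
  · exact ⟨5, by norm_num, z 1, z 2, hz _, hz _, by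
      funext m; fin_cases m <;> simp [ptR] <;> assumption⟩
  · exact ⟨7, by norm_num, z 0, z 3, hz _, hz _, by
      funext m; fin_cases m <;> simp [ptR] <;> assumption⟩
  · exact ⟨9, by norm_num, z 0, z 2, hz _, hz _, by
      funext m; fin_cases m <;> simp [ptR] <;> assumption⟩
  · exact ⟨11, by norm_num, z 0, z 1, hz _, hz _, by
      funext m; fin_cases m <;> simp [ptR] <;> assumption⟩

theorem cover_sq (y : Fin 4 → ℝ) (hy : y ∈ Skel 4) :
    ∃ r < 12, ∃ a b : ℝ, |a| ≤ 1 ∧ |b| ≤ 1 ∧ (y = ptR r a b ∨ -y = ptR r a b) := by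
  obtain ⟨hb, i, j, hij, h1, h2⟩ := hy
  have hb' : ∀ m, |(-y) m| ≤ 1 := fun m => by rw [Pi.neg_apply, abs_neg]; exact hb m
  have key : ∀ i j : Fin 4, i < j → |y i| = 1 → |y j| = 1 →
      ∃ r < 12, ∃ a b : ℝ, |a| ≤ 1 ∧ |b| ≤ 1 ∧ (y = ptR r a b ∨ -y = ptR r a b) := by
    intro i j hij h1 h2
    rcases (abs_eq zero_le_one).1 h1 with h1 | h1
    · obtain ⟨r, hr, a, b, ha, hb2, h⟩ := sq_key y hb i j hij h1 h2
      exact ⟨r, hr, a, b, ha, hb2, Or.inl h⟩
    · obtain ⟨r, hr, a, b, ha, hb2, h⟩ := sq_key (-y) hb' i j hij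
        (by rw [Pi.neg_apply, h1, neg_neg]) (by rw [Pi.neg_apply, abs_neg]; exact h2)
      exact ⟨r, hr, a, b, ha, hb2, Or.inr h⟩
  rcases lt_or_gt_of_ne hij with h | h
  · exact key i j h h1 h2
  · exact key j i h h2 h1

/-- `N` directions illuminate the `2`-skeleton of the cube -/
def Lights (N : ℕ) (K : Set (Fin 4 → ℝ)) : Prop :=
  ∃ S : Finset (Fin 4 → ℝ), S.card ≤ N ∧ ∀ y ∈ Skel 4, ∃ t ∈ S, Lit K t y

def symD (D : List Z4) : Bool :=
  D.all fun T => D.any fun T' =>
    decide (T'.a = -T.a) && decide (T'.b = -T.b) && decide (T'.c = -T.c) && decide (T'.d = -T.d)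

theorem lit_neg (h : Basic K) {t x : Fin 4 → ℝ} (hl : Lit K t (-x)) :
    Lit K (-t) x := by
  obtain ⟨τ, hτ, hi⟩ := hl
  refine ⟨τ, hτ, ?_⟩
  have hint : ∀ z ∈ interior K, -z ∈ interior K := by
    intro z hz
    have h1 : (fun x : Fin 4 → ℝ => -x) ⁻¹' interior K ⊆ interior K := by
      apply interior_maximal
      · intro w hw
        have := h.symm _ (interior_subset hw)
        simpa using this
      · exact isOpen_interior.preimage continuous_neg
    exact h1 (by simpa using hz)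
  have := hint _ hi
  convert this using 1
  rw [smul_neg, neg_add, neg_neg]

theorem lights_of_cert (h : Basic K) {N : ℕ} (hW : 0 < W) (hA : AtomsIn At K)
    (hlen : D.length ≤ N) (hsym : symD D = true)
    (hok : ∀ i < 12, ∃ L : List Slab, slabsOk U W At D i L (-W) = true ∨
      slabsOk U W At D (i + 12) L (-W) = true) : Lights N K := by
  classical
  refine ⟨(D.map Z4.r).toFinset, ?_, ?_⟩
  · exact (List.toFinset_card_le _).trans (by simpa using hlen)
  · intro y hy
    obtain ⟨r, hr, a, b, ha, hb, hor⟩ := cover_sq y hy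
    have hlit : ∃ T ∈ D, Lit K T.r (ptR r a b) := by
      obtain ⟨L, hL | hL⟩ := hok r hr
      · exact square_spec h hW hA hL ha hb
      · rw [← ptR_swap r hr]
        exact square_spec h hW hA hL hb ha
    obtain ⟨T, hT, hl⟩ := hlit
    rcases hor with he | he
    · exact ⟨T.r, by simpa using ⟨T, hT, rfl⟩, by rw [he]; exact hl⟩
    · have h1 := List.all_eq_true.1 hsym T hT
      obtain ⟨T', hT', h2⟩ := List.any_eq_true.1 h1
      simp only [Bool.and_eq_true, decide_eq_true_eq] at h2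
      obtain ⟨⟨⟨ha, hb⟩, hc⟩, hd⟩ := h2
      refine ⟨T'.r, by simpa using ⟨T', hT', rfl⟩, ?_⟩
      have : T'.r = -T.r := by
        funext m
        fin_cases m <;> simp [Z4.r, ha, hb, hc, hd]
      rw [this]
      exact lit_neg h (by rw [he]; exact hl)

end Pool.Agent.Y512.S4
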