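import Mathlib
import Pool.Agent.Y512.Frame

set_option autoImplicit false

/-!
# The extremal frame, with the maximality of the determinant in the conclusion
-/

namespace Pool.Agent.Y512

open Set Topology Matrix Pointwise

variable {n : ℕ}

theorem exists_extremal2 (hn : 2 ≤ n) {K : Set (Fin n → ℝ)} (hK : Convex ℝ K)
    (hc : IsCompact K) (hi : (interior K).Nonempty) :
    ∃ G : Matrix (Fin n) (Fin n) ℝ, 0 < G.det ∧ ∃ p q : Fin n → Fin n → ℝ,
      (∀ i, p i ∈ K) ∧ (∀ i, q i ∈ K) ∧ (∀ i, G *ᵥ (p i - q i) = Pi.single i 1) ∧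
      (∀ i, ∀ y ∈ K, G i ⬝ᵥ (y - p i) ≤ 0) ∧ (∀ i, ∀ y ∈ K, 0 ≤ G i ⬝ᵥ (y - q i)) ∧
      (∀ H : Matrix (Fin n) (Fin n) ℝ, (∀ i, ∀ y ∈ K, ∀ y' ∈ K, H i ⬝ᵥ (y - y') ≤ 1) →
        H.det ≤ G.det) ∧
      ∀ i, ¬ (BadF K (G i) (p i) ∧ BadF K (G i) (q i)) := by
  classical
  obtain ⟨c, hcK⟩ := hi
  obtain ⟨δ, hδ, hball⟩ := Metric.isOpen_iff.1 isOpen_interior c hcK
  have hshift : ∀ (k : Fin n) (r : ℝ), |r| < δ → c + r • (Pi.single k 1 : Fin n → ℝ) ∈ K := by
    intro k r hr
    apply interior_subset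
    apply hball
    rw [Metric.mem_ball, dist_eq_norm]
    have : c + r • (Pi.single k 1 : Fin n → ℝ) - c = r • (Pi.single k 1) := by abel
    rw [this, norm_smul, Real.norm_eq_abs]
    have h3 : ‖(Pi.single k (1 : ℝ) : Fin n → ℝ)‖ ≤ 1 := by
      rw [pi_norm_le_iff_of_nonneg zero_le_one]
      intro i
      by_cases h : i = k
      · subst h; simp
      · simp [Pi.single_eq_of_ne h]
    nlinarith [abs_nonneg r]
  have hcK' := interior_subset hcK
  let D : Set (Fin n → Fin n → ℝ) := {G | ∀ i, ∀ y ∈ K, ∀ y' ∈ K, G i ⬝ᵥ (y - y') ≤ 1}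
  have hDclosed : IsClosed D := by
    have : D = ⋂ i, ⋂ y ∈ K, ⋂ y' ∈ K, {G : Fin n → Fin n → ℝ | G i ⬝ᵥ (y - y') ≤ 1} := by
      ext G; simp [D]
    rw [this]
    refine isClosed_iInter fun i => isClosed_biInter fun y _ => isClosed_biInter fun y' _ => ?_
    apply isClosed_le _ continuous_const
    simp only [dotProduct]
    fun_prop
  have hDbdd : Bornology.IsBounded D := by
    apply (Metric.isBounded_closedBall (x := (0 : Fin n → Fin n → ℝ)) (r := 2 / δ)).subset
    intro G hG
    rw [mem_closedBall_zero_iff, pi_norm_le_iff_of_nonneg (by positivity)]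
    intro i
    rw [pi_norm_le_iff_of_nonneg (by positivity)]
    intro j
    have h1 := hG i _ (hshift j (δ / 2) (by rw [abs_of_pos (by positivity)]; linarith)) c hcK'
    have h2 := hG i _ (hshift j (-(δ / 2)) (by
      rw [abs_neg, abs_of_pos (by positivity)]; linarith)) c hcK'
    rw [add_sub_cancel_left, dotProduct_smul, dotProduct_single, smul_eq_mul, mul_one] at h1 h2
    rw [Real.norm_eq_abs, abs_le, le_div_iff₀ hδ, neg_le_iff_add_nonneg]
    constructor
    · have : 0 ≤ (G i j + 2 / δ) * δ := by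
        rw [add_mul, div_mul_cancel₀ _ hδ.ne']; linarith
      exact nonneg_of_mul_nonneg_left this hδ
    · linarith
  have hDcomp : IsCompact D := Metric.isCompact_of_isClosed_isBounded hDclosed hDbdd
  have hdetc : Continuous fun G : Fin n → Fin n → ℝ => Matrix.det (Matrix.of G) := by
    apply Continuous.matrix_det
    exact continuous_id
  -- a point of `D` with positive determinant
  obtain ⟨R, hR⟩ := hc.isBounded.subset_closedBall (0 : Fin n → ℝ)
  have hRc : ‖c‖ ≤ R := by simpa using hR hcK'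
  have hR0 : 0 ≤ R := (norm_nonneg _).trans hRc
  let κ : ℝ := 1 / (2 * R + 1)
  have hκ : 0 < κ := by positivity
  have hκD : (fun i => κ • (Pi.single i 1 : Fin n → ℝ)) ∈ D := by
    intro i y hy y' hy'
    have h1 : ‖y‖ ≤ R := by simpa using hR hy
    have h2 : ‖y'‖ ≤ R := by simpa using hR hy'
    have h3 := (norm_le_pi_norm y i).trans h1
    have h4 := (norm_le_pi_norm y' i).trans h2
    rw [Real.norm_eq_abs] at h3 h4
    rw [smul_dotProduct, single_one_dotProduct, Pi.sub_apply, smul_eq_mul]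
    have h5 : y i - y' i ≤ 2 * R + 1 := by
      have := (abs_le.1 h3).2
      have := (abs_le.1 h4).1
      linarith
    calc κ * (y i - y' i) ≤ κ * (2 * R + 1) := mul_le_mul_of_nonneg_left h5 hκ.le
      _ = 1 := by simp only [κ]; field_simp
  have hκdet : 0 < Matrix.det (Matrix.of fun i => κ • (Pi.single i 1 : Fin n → ℝ)) := by
    have : (Matrix.of fun i => κ • (Pi.single i 1 : Fin n → ℝ)) =
        Matrix.diagonal fun _ : Fin n => κ := by
      ext i j
      simp only [Matrix.of_apply, Pi.smul_apply, smul_eq_mul, Matrix.diagonal_apply]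
      by_cases h : i = j
      · subst h; simp
      · simp [h]
    rw [this, Matrix.det_diagonal]
    exact Finset.prod_pos fun _ _ => hκ
  obtain ⟨G0, hG0, hG0max⟩ := hDcomp.exists_isMaxOn ⟨_, hκD⟩ hdetc.continuousOn
  let M : Set (Fin n → Fin n → ℝ) := D ∩ {G | Matrix.det (Matrix.of G) = Matrix.det (Matrix.of G0)}
  have hMcomp : IsCompact M := hDcomp.inter_right (isClosed_eq hdetc continuous_const)
  let N : (Fin n → ℝ) → ℝ := fun r => ∑ l, r l ^ 2
  let Ψ : (Fin n → Fin n → ℝ) → ℝ := fun G => ∑ k, N (G k)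
  have hΨc : Continuous Ψ := by simp only [Ψ, N]; fun_prop
  obtain ⟨G, ⟨hGD, hGdet⟩, hGmax⟩ := hMcomp.exists_isMaxOn ⟨G0, hG0, rfl⟩ hΨc.continuousOn
  have hGdet' : Matrix.det (Matrix.of G) = Matrix.det (Matrix.of G0) := hGdet
  have hmax : ∀ H ∈ D, Matrix.det (Matrix.of H) ≤ Matrix.det (Matrix.of G) := by
    intro H hH
    rw [hGdet']
    exact hG0max hH
  have hmaxΨ : ∀ H ∈ D, Matrix.det (Matrix.of H) = Matrix.det (Matrix.of G) → Ψ H ≤ Ψ G := by
    intro H hH hd
    exact hGmax ⟨hH, hd.trans hGdet'⟩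
  have hdetpos : 0 < Matrix.det (Matrix.of G) := hκdet.trans_le (hmax _ hκD)
  set A : Matrix (Fin n) (Fin n) ℝ := Matrix.of G with hA
  have hunit : IsUnit A.det := isUnit_iff_ne_zero.2 hdetpos.ne'
  let u : Fin n → Fin n → ℝ := fun i => A⁻¹ *ᵥ (Pi.single i 1)
  have hu : ∀ i, A *ᵥ u i = Pi.single i 1 := by
    intro i
    simp only [u]
    rw [Matrix.mulVec_mulVec, Matrix.mul_nonsing_inv _ hunit, Matrix.one_mulVec]
  have hGu : ∀ i k, G k ⬝ᵥ u i = (Pi.single i 1 : Fin n → ℝ) k := by
    intro i k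
    rw [← hu i]
    rfl
  -- the chords
  have hchord : ∀ i, ∃ p ∈ K, ∃ q ∈ K, p - q = u i := by
    intro i
    by_contra hno
    push Not at hno
    have hnm : u i ∉ K - K := by
      rintro ⟨p, hp, q, hq, hpq⟩
      exact hno p hp q hq hpq
    have hcl : IsClosed (K - K) := by
      rw [sub_eq_add_neg]
      exact (hc.add hc.neg).isClosed
    obtain ⟨f, s, hf1, hf2⟩ := geometric_hahn_banach_closed_point (hK.sub hK) hcl hnm
    have hs : 0 < s := by
      have := hf1 0 ⟨c, hcK', c, hcK', sub_self c⟩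
      simpa using this
    have hfd : ∀ y : Fin n → ℝ, f y = (fun j => f (Pi.single j 1)) ⬝ᵥ y := by
      intro y
      have hy : y = ∑ j, y j • (Pi.single j 1 : Fin n → ℝ) := by
        funext k
        simp [Finset.sum_apply, Pi.single_apply]
      conv_lhs => rw [hy]
      rw [map_sum, dotProduct]
      refine Finset.sum_congr rfl fun j _ => ?_
      rw [map_smul, smul_eq_mul, mul_comm]
    let g : Fin n → ℝ := fun j => f (Pi.single j 1) / s
    have hg : ∀ y : Fin n → ℝ, g ⬝ᵥ y = f y / s := by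
      intro y
      rw [hfd y, dotProduct, dotProduct, Finset.sum_div]
      refine Finset.sum_congr rfl fun j _ => ?_
      simp only [g]
      ring
    have hHD : Function.update G i g ∈ D := by
      intro k y hy y' hy'
      by_cases hk : k = i
      · subst hk
        rw [Function.update_self, hg, div_le_one hs]
        exact (hf1 _ ⟨y, hy, y', hy', rfl⟩).le
      · rw [Function.update_of_ne hk]
        exact hGD k y hy y' hy'
    have h1 := hmax _ hHD
    have h2 : (Matrix.of (Function.update G i g)) = A.updateRow i g := rfl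
    rw [h2, det_updateRow_eq A i g (u i) (hu i), hg] at h1
    have h3 : 1 < f (u i) / s := by rwa [one_lt_div hs]
    nlinarith
  choose p hp q hq hpq using hchord
  have hGpq : ∀ i, G i ⬝ᵥ (p i - q i) = 1 := by
    intro i
    rw [hpq, hGu]; simp
  have hle : ∀ i, ∀ y ∈ K, G i ⬝ᵥ (y - p i) ≤ 0 := by
    intro i y hy
    have h1 := hGD i y hy (q i) (hq i)
    have h2 : y - q i = (y - p i) + (p i - q i) := by abel
    rw [h2, dotProduct_add, hGpq] at h1
    linarith
  have hge : ∀ i, ∀ y ∈ K, 0 ≤ G i ⬝ᵥ (y - q i) := by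
    intro i y hy
    have h1 := hGD i (p i) (hp i) y hy
    have h2 : p i - y = (p i - q i) - (y - q i) := by abel
    rw [h2, dotProduct_sub, hGpq] at h1
    linarith
  refine ⟨A, hdetpos, p, q, hp, hq, fun i => by rw [hpq]; exact hu i, hle, hge, fun H hH => hmax H hH, ?_⟩
  -- not both contacts are sharp
  rintro i ⟨hb1, hb2⟩
  obtain ⟨j, hji⟩ : ∃ j : Fin n, j ≠ i := by
    have : Nontrivial (Fin n) := Fin.nontrivial_iff_two_le.2 hn
    exact exists_ne i
  obtain ⟨κ1, hκ1, hk1⟩ := bad_kappa (hle i) hb1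
  have hb2' : BadF K (-(G i)) (q i) := by
    intro t ht h0
    apply hb2 t ht
    rw [neg_dotProduct, neg_eq_zero] at h0
    exact h0
  obtain ⟨κ2, hκ2, hk2⟩ := bad_kappa (g := -(G i)) (a := q i) (fun y hy => by
    rw [neg_dotProduct]; linarith [hge i y hy]) hb2'
  let C : ℝ := ∑ l, |G j l|
  have hC : 0 ≤ C := Finset.sum_nonneg fun _ _ => abs_nonneg _
  let s : ℝ := min κ1 κ2 / (C + 1)
  have hs : 0 < s := by
    have : 0 < min κ1 κ2 := lt_min hκ1 hκ2
    positivity
  have hsC : s * C ≤ min κ1 κ2 := by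
    have : 0 < min κ1 κ2 := lt_min hκ1 hκ2
    calc s * C ≤ s * (C + 1) := by nlinarith
      _ = min κ1 κ2 := by simp only [s]; field_simp
  have hin : ∀ σ : ℝ, |σ| = s → Function.update G i (G i + σ • G j) ∈ D := by
    intro σ hσ k y hy y' hy'
    by_cases hk : k = i
    · subst hk
      rw [Function.update_self]
      have e1 : y - y' = (y - p k) + (p k - q k) + (q k - y') := by abel
      have e2 : (G k + σ • G j) ⬝ᵥ (p k - q k) = 1 := by
        rw [add_dotProduct, hGpq, smul_dotProduct, hpq, hGu, Pi.single_eq_of_ne hji]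
        simp
      have e3 : (G k + σ • G j) ⬝ᵥ (y - p k) ≤ 0 := by
        rw [add_dotProduct, smul_dotProduct, smul_eq_mul]
        have h1 := hk1 _ (TC_of_mem (x := p k) hy)
        have h2 := dot_bound (G j) (y - p k)
        have h3 : σ * G j ⬝ᵥ (y - p k) ≤ s * (C * ‖y - p k‖) := by
          calc σ * G j ⬝ᵥ (y - p k) ≤ |σ * G j ⬝ᵥ (y - p k)| := le_abs_self _
            _ = s * |G j ⬝ᵥ (y - p k)| := by rw [abs_mul, hσ]
            _ ≤ s * (C * ‖y - p k‖) := mul_le_mul_of_nonneg_left h2 hs.le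
        have h4 : s * (C * ‖y - p k‖) ≤ κ1 * ‖y - p k‖ := by
          rw [← mul_assoc]
          exact mul_le_mul_of_nonneg_right (hsC.trans (min_le_left _ _)) (norm_nonneg _)
        linarith
      have e4 : (G k + σ • G j) ⬝ᵥ (q k - y') ≤ 0 := by
        have h0 : q k - y' = -(y' - q k) := by abel
        rw [h0, dotProduct_neg, add_dotProduct, smul_dotProduct, smul_eq_mul]
        have h1 := hk2 _ (TC_of_mem (x := q k) hy')
        rw [neg_dotProduct] at h1
        have h2 := dot_bound (G j) (y' - q k)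
        have h3 : -(s * (C * ‖y' - q k‖)) ≤ σ * G j ⬝ᵥ (y' - q k) := by
          have : |σ * G j ⬝ᵥ (y' - q k)| ≤ s * (C * ‖y' - q k‖) := by
            rw [abs_mul, hσ]
            exact mul_le_mul_of_nonneg_left h2 hs.le
          exact (abs_le.1 this).1
        have h4 : s * (C * ‖y' - q k‖) ≤ κ2 * ‖y' - q k‖ := by
          rw [← mul_assoc]
          exact mul_le_mul_of_nonneg_right (hsC.trans (min_le_right _ _)) (norm_nonneg _)
        linarith
      rw [e1, dotProduct_add, dotProduct_add]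
      linarith
    · rw [Function.update_of_ne hk]
      exact hGD k y hy y' hy'
  have hdet : ∀ σ : ℝ, Matrix.det (Matrix.of (Function.update G i (G i + σ • G j))) =
      Matrix.det (Matrix.of G) := by
    intro σ
    have : Matrix.of (Function.update G i (G i + σ • G j)) =
        A.updateRow i (A i + σ • A j) := rfl
    rw [this, Matrix.det_updateRow_add_smul_self A hji.symm]
  have hΨ : ∀ r : Fin n → ℝ, Ψ (Function.update G i r) = Ψ G - N (G i) + N r := by
    intro r
    simp only [Ψ]
    rw [← Finset.add_sum_erase Finset.univ _ (Finset.mem_univ i),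
      ← Finset.add_sum_erase Finset.univ (fun k => N (G k)) (Finset.mem_univ i)]
    rw [Function.update_self]
    have : ∑ k ∈ Finset.univ.erase i, N (Function.update G i r k) =
        ∑ k ∈ Finset.univ.erase i, N (G k) := by
      refine Finset.sum_congr rfl fun k hk => ?_
      rw [Function.update_of_ne (Finset.ne_of_mem_erase hk)]
    rw [this]
    ring
  have h1 := hmaxΨ _ (hin s (abs_of_pos hs)) (hdet s)
  have h2 := hmaxΨ _ (hin (-s) (by rw [abs_neg, abs_of_pos hs])) (hdet (-s))
  rw [hΨ] at h1 h2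
  have h3 : N (G i + s • G j) + N (G i + (-s) • G j) = 2 * N (G i) + 2 * s ^ 2 * N (G j) := by
    simp only [N]
    rw [← Finset.sum_add_distrib, Finset.mul_sum, Finset.mul_sum, ← Finset.sum_add_distrib]
    refine Finset.sum_congr rfl fun l _ => ?_
    simp only [Pi.add_apply, Pi.smul_apply, smul_eq_mul]
    ring
  have h4 : 0 < N (G j) := by
    rcases (Finset.sum_nonneg (fun l _ => sq_nonneg (G j l)) : 0 ≤ N (G j)).lt_or_eq with h | h
    · exact h
    · exfalso
      have h5 : ∀ l ∈ Finset.univ, G j l ^ 2 = 0 :=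
        (Finset.sum_eq_zero_iff_of_nonneg fun l _ => sq_nonneg (G j l)).1 h.symm
      have h6 : G j ⬝ᵥ (p j - q j) = 0 := by
        rw [dotProduct]
        apply Finset.sum_eq_zero
        intro l hl
        have := h5 l hl
        rw [sq_eq_zero_iff] at this
        rw [this, zero_mul]
      rw [hGpq] at h6
      exact one_ne_zero h6
  have h5 : 0 < s ^ 2 * N (G j) := by positivity
  linarith

end Pool.Agent.Y512
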