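import Mathlib
import Pool.Agent.Y512.Reduce
import Pool.Agent.Y512.S4.Frame2

set_option autoImplicit false

/-!
# The normal form of a centrally symmetric convex body

A symmetric convex body is, up to a linear map, inscribed in the cube `[-1,1]^n`, contains the
unit vectors, has no sharp contact with the cube, and for any two elements `f`, `g` of the polar
body the minors `f i * g j - f j * g i` are at most one. It follows that for all `i ≠ j` one of
the points `α (e i + e j)`, `β (e i - e j)` belongs to the body whenever `1/α + 1/β = 3`.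
-/

namespace Pool.Agent.Y512

open Set Topology Matrix Pointwise

variable {n : ℕ}

/-- the normal form of a symmetric convex body -/
structure SNF (K : Set (Fin n → ℝ)) : Prop where
  conv : Convex ℝ K
  comp : IsCompact K
  inte : (interior K).Nonempty
  symm : ∀ x ∈ K, -x ∈ K
  cube : ∀ y ∈ K, ∀ i, |y i| ≤ 1
  axis : ∀ i, (Pi.single i 1 : Fin n → ℝ) ∈ K
  good : ∀ i b, ¬ Bad K i (sg b • (Pi.single i 1 : Fin n → ℝ))
  minor : ∀ f g : Fin n → ℝ, (∀ y ∈ K, f ⬝ᵥ y ≤ 1) → (∀ y ∈ K, g ⬝ᵥ y ≤ 1) →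
    ∀ i j, i ≠ j → 0 < f i → f i * g j - f j * g i ≤ 1

theorem TC_neg {K : Set (Fin n → ℝ)} (hs : ∀ x ∈ K, -x ∈ K) {x t : Fin n → ℝ}
    (ht : t ∈ TC K x) : -t ∈ TC K (-x) := by
  refine map_mem_closure continuous_neg ht ?_
  rintro _ ⟨s, hs0, y, hy, rfl⟩
  refine ⟨s, hs0, -y, hs y hy, ?_⟩
  rw [← smul_neg]
  congr 1
  abel

/-- the criterion -/
theorem covN_of_lit_symm (hn : 2 ≤ n) {K : Set (Fin n → ℝ)} (h : SNF K) (N : ℕ)
    (S : Finset (Fin n → ℝ)) (hS : S.card ≤ N)
    (h1 : ∀ y ∈ Skel n, ∃ t ∈ S, Lit K t y) : CovN N K := by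
  obtain ⟨T, hT, hcov⟩ := cover_of_lit h.conv h.comp S (by
    intro x hx
    have ha : ∀ (i : Fin n) (b : Bool), sg b • (Pi.single i 1 : Fin n → ℝ) ∈ K := by
      intro i b
      cases b with
      | true => simpa [sg] using h.axis i
      | false => simpa [sg] using h.symm _ (h.axis i)
    rcases exit_lemma hn h.conv h.cube h.inte (fun i b => sg b • (Pi.single i 1 : Fin n → ℝ))
      ha (fun i b => by simp) hx with
      ⟨y, hy, hxy⟩ | ⟨i, b, hxb, hbad⟩
    · obtain ⟨t, ht, hl⟩ := h1 y hy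
      exact ⟨t, ht, lit_of_TC h.conv hxy hl⟩
    · exact absurd hbad (h.good i b))
  exact ⟨T, hT.trans hS, hcov⟩

theorem det_two_rows (f g : Fin n → ℝ) (i j : Fin n) (hij : i ≠ j) (hf : f i ≠ 0) :
    (((1 : Matrix (Fin n) (Fin n) ℝ).updateRow i f).updateRow j g).det =
      f i * g j - f j * g i := by
  have h1 : ((1 : Matrix (Fin n) (Fin n) ℝ).updateRow i f).det = f i := by
    rw [det_updateRow_eq 1 i f (Pi.single i 1) (by rw [Matrix.one_mulVec])]
    simp
  rw [det_updateRow_eq _ j g (Pi.single j 1 - (f j / f i) • Pi.single i 1), h1]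
  · simp only [dotProduct_sub, dotProduct_smul, dotProduct_single, smul_eq_mul, mul_one]
    field_simp
  · funext k
    by_cases hk : k = i
    · subst hk
      simp only [Matrix.mulVec, Matrix.updateRow_self, dotProduct_sub, dotProduct_smul,
        dotProduct_single, smul_eq_mul, mul_one]
      rw [div_mul_cancel₀ _ hf, sub_self]
      simp [hij]
    · have : ((1 : Matrix (Fin n) (Fin n) ℝ).updateRow i f) k = (1 : Matrix (Fin n) (Fin n) ℝ) k :=
        Matrix.updateRow_ne hk
      simp only [Matrix.mulVec]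
      rw [this]
      have h2 : (1 : Matrix (Fin n) (Fin n) ℝ) k = Pi.single k 1 := by
        funext l
        simp [Matrix.one_apply, Pi.single_apply, eq_comm]
      rw [h2, single_one_dotProduct]
      simp [Pi.single_eq_of_ne hk]

theorem covN_of_SNF (hn : 2 ≤ n) (N : ℕ)
    (H : ∀ K : Set (Fin n → ℝ), SNF K → CovN N K)
    {K : Set (Fin n → ℝ)} (hK : Convex ℝ K) (hc : IsCompact K) (hi : (interior K).Nonempty)
    (hsym : ∀ x ∈ K, -x ∈ K) : CovN N K := by
  classical
  obtain ⟨G, hdet, p, q, hp, hq, hpq, hle, hge, hmax, hbad⟩ := exists_extremal2 hn hK hc hi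
  let L : (Fin n → ℝ) →ₗ[ℝ] (Fin n → ℝ) := (Matrix.mulVecLin ((2 : ℝ) • G))
  have hLdet : ((2 : ℝ) • G).det ≠ 0 := by
    rw [Matrix.det_smul]
    exact mul_ne_zero (pow_ne_zero _ two_ne_zero) hdet.ne'
  have hLunit : IsUnit ((2 : ℝ) • G).det := isUnit_iff_ne_zero.2 hLdet
  have hLinj : Function.Injective L := by
    intro x y hxy
    have h1 : ((2 : ℝ) • G) *ᵥ x = ((2 : ℝ) • G) *ᵥ y := hxy
    have h2 := congrArg (fun v => ((2 : ℝ) • G)⁻¹ *ᵥ v) h1
    simp only [Matrix.mulVec_mulVec, Matrix.nonsing_inv_mul _ hLunit, Matrix.one_mulVec] at h2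
    exact h2
  let A : (Fin n → ℝ) ≃L[ℝ] (Fin n → ℝ) :=
    (LinearEquiv.ofInjectiveEndo L hLinj).toContinuousLinearEquiv
  have hA' : ∀ x, A x = (2 : ℝ) • (G *ᵥ x) := by
    intro x
    have : A x = L x := rfl
    rw [this]
    simp only [L, Matrix.mulVecLin_apply, Matrix.smul_mulVec]
  have hA : ∀ x i, A x i = 2 * (G i ⬝ᵥ x) := by
    intro x i
    rw [hA']
    rfl
  have hGpq : ∀ i k, G k ⬝ᵥ (p i - q i) = (Pi.single i 1 : Fin n → ℝ) k := by
    intro i k
    rw [← hpq i]
    rfl
  -- the centres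
  let c : Fin n → Fin n → ℝ := fun i => (1 / 2 : ℝ) • (p i - q i)
  have hcK : ∀ i, c i ∈ K := by
    intro i
    have := hK (hp i) (hsym _ (hq i)) (a := 1 / 2) (b := 1 / 2) (by norm_num) (by norm_num)
      (by norm_num)
    convert this using 1
    simp only [c]
    rw [smul_sub, smul_neg, sub_eq_add_neg]
  have hAc : ∀ i, A (c i) = Pi.single i 1 := by
    intro i
    rw [hA']
    simp only [c]
    rw [Matrix.mulVec_smul, hpq, smul_smul]
    norm_num
  have hGp : ∀ i, G i ⬝ᵥ p i = 1 / 2 ∧ G i ⬝ᵥ q i = -(1 / 2) := by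
    intro i
    have h1 := hle i _ (hsym _ (hq i))
    have h2 := hge i _ (hsym _ (hp i))
    have h3 := hGpq i i
    rw [Pi.single_eq_same, dotProduct_sub] at h3
    rw [dotProduct_sub, dotProduct_neg] at h1 h2
    constructor <;> linarith
  have himg : (fun x => A x + (0 : Fin n → ℝ)) '' K = A '' K := by
    ext z; simp
  apply covN_of_image A 0
  rw [himg]
  apply H
  have hcube : ∀ y ∈ K, ∀ i, |A y i| ≤ 1 := by
    intro y hy i
    rw [hA, abs_le]
    have h1 := hle i _ hy
    have h2 := hge i _ hy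
    have h3 := hGp i
    rw [dotProduct_sub] at h1 h2
    constructor <;> linarith
  have hBadc : ∀ i, ¬ BadF K (G i) (c i) := by
    intro i hB
    have h1 : p i - c i ∈ TC K (c i) := TC_of_mem (hp i)
    have h2 : G i ⬝ᵥ (p i - c i) = 0 := by
      simp only [c]
      rw [dotProduct_sub, dotProduct_smul, hGpq, (hGp i).1]
      simp
    have h3 := hB _ h1 h2
    have h4 : p i = c i := sub_eq_zero.1 h3
    have h5 : q i = -p i := by
      have h6 : c i = (1 / 2 : ℝ) • (p i - q i) := rfl
      have h7 : (2 : ℝ) • p i = p i - q i := by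
        nth_rewrite 1 [h4]
        rw [h6, smul_smul]
        norm_num
      rw [two_smul] at h7
      have h8 : p i = -q i := by
        have h9 : p i + p i - p i = p i - q i - p i := by rw [h7]
        simpa using h9
      rw [h8, neg_neg]
    apply hbad i
    constructor
    · rw [h4]; exact hB
    · intro t ht h0
      rw [h5] at ht
      have h6 := TC_neg hsym ht
      rw [neg_neg, h4] at h6
      have h7 := hB _ h6 (by rw [dotProduct_neg, h0, neg_zero])
      exact neg_eq_zero.1 h7
  have hint : interior (A '' K) = A '' interior K := by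
    have := A.toHomeomorph.image_interior K
    exact this.symm
  have hTCm : ∀ {K' : Set (Fin n → ℝ)} (B : (Fin n → ℝ) ≃L[ℝ] (Fin n → ℝ)) (x t : Fin n → ℝ),
      t ∈ TC K' x → B t ∈ TC (B '' K') (B x) := by
    intro K' B x t h
    have := TC_map B 0 K' x t h
    simpa using this
  constructor
  · exact hK.linear_image (A : (Fin n → ℝ) →ₗ[ℝ] (Fin n → ℝ))
  · exact hc.image A.continuous
  · rw [hint]
    exact hi.image _
  · rintro _ ⟨y, hy, rfl⟩
    exact ⟨-y, hsym y hy, map_neg A y⟩
  · rintro _ ⟨y, hy, rfl⟩ i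
    exact hcube y hy i
  · intro i
    exact ⟨c i, hcK i, hAc i⟩
  · intro i b hB
    have key : ∀ x : Fin n → ℝ, Bad (A '' K) i (A x) → BadF K (G i) x := by
      intro x hx t ht h0
      have h1 := hx (A t) (hTCm A x t ht) (by rw [hA, h0, mul_zero])
      exact A.injective (by rw [h1, map_zero])
    cases b with
    | true =>
      apply hBadc i
      apply key
      rw [hAc]
      simpa [sg] using hB
    | false =>
      have h1 : BadF K (G i) (-(c i)) := by
        apply key
        rw [map_neg, hAc]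
        simpa [sg] using hB
      apply hBadc i
      intro t ht h0
      have h2 := h1 (-t) (TC_neg hsym ht) (by rw [dotProduct_neg, h0, neg_zero])
      exact neg_eq_zero.1 h2
  · intro f g hf hg i j hij hfi
    -- the perturbed matrix
    have hrow : ∀ h : Fin n → ℝ, (∀ y ∈ A '' K, h ⬝ᵥ y ≤ 1) → ∀ y ∈ K, ∀ y' ∈ K,
        (h ᵥ* G) ⬝ᵥ (y - y') ≤ 1 := by
      intro h hh y hy y' hy'
      have h1 := hh _ ⟨y, hy, rfl⟩
      have h2 := hh _ ⟨-y', hsym y' hy', rfl⟩
      rw [hA', dotProduct_smul, Matrix.dotProduct_mulVec, smul_eq_mul] at h1 h2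
      rw [dotProduct_neg] at h2
      rw [dotProduct_sub]
      linarith
    have hG1 : ∀ k, ∀ y ∈ K, ∀ y' ∈ K, G k ⬝ᵥ (y - y') ≤ 1 := by
      intro k y hy y' hy'
      have h1 := hle k _ hy
      have h2 := hge k _ hy'
      have h3 := hGp k
      rw [dotProduct_sub] at h1 h2 ⊢
      linarith
    let M : Matrix (Fin n) (Fin n) ℝ :=
      ((1 : Matrix (Fin n) (Fin n) ℝ).updateRow i f).updateRow j g
    have hM : ∀ k, ∀ y ∈ K, ∀ y' ∈ K, (M * G) k ⬝ᵥ (y - y') ≤ 1 := by
      intro k y hy y' hy'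
      have h0 : (M * G) k = M k ᵥ* G := by
        funext l
        simp [Matrix.mul_apply, Matrix.vecMul, dotProduct]
      rw [h0]
      by_cases hkj : k = j
      · subst hkj
        simp only [M]
        rw [Matrix.updateRow_self]
        exact hrow g hg y hy y' hy'
      · by_cases hki : k = i
        · subst hki
          simp only [M]
          rw [Matrix.updateRow_ne hkj, Matrix.updateRow_self]
          exact hrow f hf y hy y' hy'
        · have h1 : M k = Pi.single k 1 := by
            simp only [M]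
            rw [Matrix.updateRow_ne hkj, Matrix.updateRow_ne hki]
            funext l
            simp [Matrix.one_apply, Pi.single_apply, eq_comm]
          rw [h1, Matrix.single_one_vecMul]
          exact hG1 k y hy y' hy'
    have h1 := hmax (M * G) hM
    rw [Matrix.det_mul, det_two_rows f g i j hij hfi.ne'] at h1
    by_contra hcon
    push Not at hcon
    nlinarith

/-- one of the two diagonal directions is long -/
theorem SNF.diag {K : Set (Fin n → ℝ)} (h : SNF K) (i j : Fin n) (hij : i ≠ j) (s : ℝ)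
    (hs : s = 1 ∨ s = -1) (α β : ℝ) (hα : 0 < α) (hβ : 0 < β) (hα1 : α ≤ 1) (hβ1 : β ≤ 1)
    (hαβ : 1 / α + 1 / β = 3) :
    α • ((Pi.single i 1 : Fin n → ℝ) + s • Pi.single j 1) ∈ K ∨
      β • ((Pi.single i 1 : Fin n → ℝ) - s • Pi.single j 1) ∈ K := by
  classical
  by_contra hcon
  push Not at hcon
  obtain ⟨h1, h2⟩ := hcon
  have hz : (0 : Fin n → ℝ) ∈ K := by
    obtain ⟨c, hc⟩ := h.inte
    have hc' := interior_subset hc
    have := h.conv hc' (h.symm c hc') (a := 1 / 2) (b := 1 / 2) (by norm_num) (by norm_num)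
      (by norm_num)
    simpa using this
  have hsep : ∀ z : Fin n → ℝ, z ∉ K → ∃ f : Fin n → ℝ, (∀ y ∈ K, f ⬝ᵥ y ≤ 1) ∧ 1 < f ⬝ᵥ z := by
    intro z hzK
    obtain ⟨f, s, hf1, hf2⟩ := geometric_hahn_banach_closed_point h.conv h.comp.isClosed hzK
    have hs0 : 0 < s := by simpa using hf1 0 hz
    have hfd : ∀ y : Fin n → ℝ, f y = (fun j => f (Pi.single j 1)) ⬝ᵥ y := by
      intro y
      have hy : y = ∑ j, y j • (Pi.single j 1 : Fin n → ℝ) := by
        funext k
        simp [Finset.sum_apply, Pi.single_apply]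
      conv_lhs => rw [hy]
      rw [map_sum, dotProduct]
      refine Finset.sum_congr rfl fun j _ => ?_
      rw [map_smul, smul_eq_mul, mul_comm]
    have hg : ∀ y : Fin n → ℝ, (fun j => f (Pi.single j 1) / s) ⬝ᵥ y = f y / s := by
      intro y
      rw [hfd y, dotProduct, dotProduct, Finset.sum_div]
      refine Finset.sum_congr rfl fun j _ => ?_
      ring
    refine ⟨fun j => f (Pi.single j 1) / s, fun y hy => ?_, ?_⟩
    · rw [hg, div_le_one hs0]
      exact (hf1 y hy).le
    · rw [hg, one_lt_div hs0]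
      exact hf2
  obtain ⟨f, hf, hf1⟩ := hsep _ h1
  obtain ⟨g, hg, hg1⟩ := hsep _ h2
  have hbd : ∀ f : Fin n → ℝ, (∀ y ∈ K, f ⬝ᵥ y ≤ 1) → ∀ k, f k ≤ 1 ∧ -1 ≤ f k := by
    intro f hf k
    have e1 := hf _ (h.axis k)
    have e2 := hf _ (h.symm _ (h.axis k))
    rw [dotProduct_neg] at e2
    rw [dotProduct_single, mul_one] at e1 e2
    constructor <;> linarith
  obtain ⟨a1, a2⟩ := hbd f hf i
  obtain ⟨b1, b2⟩ := hbd f hf j
  obtain ⟨c1, c2⟩ := hbd g hg i
  obtain ⟨d1, d2⟩ := hbd g hg j
  rw [dotProduct_smul, dotProduct_add, dotProduct_smul, dotProduct_single, dotProduct_single,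
    smul_eq_mul, smul_eq_mul, mul_one, mul_one] at hf1
  rw [dotProduct_smul, dotProduct_sub, dotProduct_smul, dotProduct_single, dotProduct_single,
    smul_eq_mul, smul_eq_mul, mul_one, mul_one] at hg1
  have e1 : 1 / α < f i + s * f j := by
    rw [div_lt_iff₀ hα]; linarith
  have e2 : 1 / β < g i - s * g j := by
    rw [div_lt_iff₀ hβ]; linarith
  have e3 : 1 ≤ 1 / α := by rw [le_div_iff₀ hα]; linarith
  have e4 : 1 ≤ 1 / β := by rw [le_div_iff₀ hβ]; linarith
  rcases hs with rfl | rfl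
  · have hgi : 0 < g i := by linarith
    have m := h.minor g f hg hf i j hij hgi
    nlinarith [mul_nonneg (sub_nonneg.2 a1) (by linarith : (0:ℝ) ≤ 1 + g j),
      mul_nonneg (sub_nonneg.2 b1) (sub_nonneg.2 c1)]
  · have hfi : 0 < f i := by linarith
    have m := h.minor f g hf hg i j hij hfi
    nlinarith [mul_nonneg (sub_nonneg.2 a1) (sub_nonneg.2 d1),
      mul_nonneg (by linarith : (0:ℝ) ≤ 1 + f j) (sub_nonneg.2 c1)]

end Pool.Agent.Y512
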