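import Mathlib
import Pool.Agent.Y512.S4.Strip
import Pool.Agent.Y512.S4.Sym

set_option autoImplicit false

/-!
# Signed permutations and the switching classes
-/

namespace Pool.Agent.Y512.S4

open Set Topology

/-- the unit vector -/
def ev (i : Fin 4) : Fin 4 → ℝ := Pi.single i 1

/-- for each pair and all `a`, `b` with `1 / a + 1 / b = 3` one of the two diagonal directions is
long -/
structure Diag (K : Set (Fin 4 → ℝ)) : Prop where
  d : ∀ i j, i ≠ j → ∀ s : ℝ, s = 1 ∨ s = -1 → ∀ a b : ℝ, 0 < a → 0 < b → a ≤ 1 → b ≤ 1 →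
    1 / a + 1 / b = 3 → a • (ev i + s • ev j) ∈ K ∨ b • (ev i - s • ev j) ∈ K

theorem Diag.d1 {K : Set (Fin 4 → ℝ)} (h : Diag K) (i j : Fin 4) (hij : i ≠ j) (s : ℝ)
    (hs : s = 1 ∨ s = -1) :
    (2 / 3 : ℝ) • (ev i + s • ev j) ∈ K ∨ (2 / 3 : ℝ) • (ev i - s • ev j) ∈ K :=
  h.d i j hij s hs _ _ (by norm_num) (by norm_num) (by norm_num) (by norm_num) (by norm_num)

theorem Diag.d2 {K : Set (Fin 4 → ℝ)} (h : Diag K) (i j : Fin 4) (hij : i ≠ j) (s : ℝ)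
    (hs : s = 1 ∨ s = -1) :
    (50 / 69 : ℝ) • (ev i + s • ev j) ∈ K ∨ (50 / 81 : ℝ) • (ev i - s • ev j) ∈ K :=
  h.d i j hij s hs _ _ (by norm_num) (by norm_num) (by norm_num) (by norm_num) (by norm_num)

theorem diag_of_SNF {K : Set (Fin 4 → ℝ)} (h : SNF K) : Diag K :=
  ⟨fun i j hij s hs _ _ h1 h2 h3 h4 h5 => h.diag i j hij s hs _ _ h1 h2 h3 h4 h5⟩

theorem basic_of_SNF {K : Set (Fin 4 → ℝ)} (h : SNF K) : Basic K :=
  ⟨h.conv, h.inte, h.symm, h.axis⟩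

/-- a signed permutation -/
noncomputable def sp (p q : Fin 4 → Fin 4) (e : Fin 4 → Bool) (h1 : ∀ i, q (p i) = i)
    (h2 : ∀ i, p (q i) = i) : (Fin 4 → ℝ) ≃L[ℝ] (Fin 4 → ℝ) :=
  (LinearEquiv.mk (R := ℝ) (S := ℝ) (σ := RingHom.id ℝ) (σ' := RingHom.id ℝ)
    (toLinearMap :=
    { toFun := fun x m => sg (e (q m)) * x (q m)
      map_add' := fun x y => by funext m; simp [mul_add]
      map_smul' := fun r x => by funext m; simp [mul_left_comm] })
    (invFun := fun y i => sg (e i) * y (p i))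
    (left_inv := fun x => by
      funext i
      simp only [h1]
      rw [← mul_assoc, sg_mul_sg, one_mul])
    (right_inv := fun y => by
      funext m
      simp only [h2]
      rw [← mul_assoc, sg_mul_sg, one_mul])).toContinuousLinearEquiv

section

variable {p q : Fin 4 → Fin 4} {e : Fin 4 → Bool} (h1 : ∀ i, q (p i) = i)
    (h2 : ∀ i, p (q i) = i)

theorem sp_apply (x : Fin 4 → ℝ) (m : Fin 4) :
    sp p q e h1 h2 x m = sg (e (q m)) * x (q m) := rfl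

theorem sp_symm_apply (x : Fin 4 → ℝ) (i : Fin 4) :
    (sp p q e h1 h2).symm x i = sg (e i) * x (p i) := rfl

theorem sp_ev (i : Fin 4) : sp p q e h1 h2 (ev i) = sg (e i) • ev (p i) := by
  funext m
  rw [sp_apply]
  simp only [ev, Pi.smul_apply, smul_eq_mul]
  by_cases h : q m = i
  · have : m = p i := by rw [← h, h2]
    subst this
    rw [h1]; simp
  · have : m ≠ p i := by
      rintro rfl
      exact h (h1 i)
    rw [Pi.single_eq_of_ne h, Pi.single_eq_of_ne this]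
    simp

theorem sg_smul_mem {K : Set (Fin 4 → ℝ)} (hs : ∀ x ∈ K, -x ∈ K) (b : Bool) (x : Fin 4 → ℝ) :
    sg b • x ∈ K ↔ x ∈ K := by
  cases b with
  | true => simp [sg]
  | false =>
    simp only [sg, Bool.false_eq_true, if_false, neg_smul, one_smul]
    constructor
    · intro h; simpa using hs _ h
    · exact hs x

theorem sp_pair {K : Set (Fin 4 → ℝ)} (hs : ∀ x ∈ K, -x ∈ K) (c s : ℝ) (i j : Fin 4) :
    sp p q e h1 h2 (c • (ev i + s • ev j)) ∈ K ↔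
      c • (ev (p i) + (s * (sg (e i) * sg (e j))) • ev (p j)) ∈ K := by
  have : sp p q e h1 h2 (c • (ev i + s • ev j)) =
      sg (e i) • (c • (ev (p i) + (s * (sg (e i) * sg (e j))) • ev (p j))) := by
    rw [map_smul, map_add, map_smul, sp_ev, sp_ev]
    have h := sg_mul_sg (e i)
    funext m
    simp only [Pi.smul_apply, Pi.add_apply, smul_eq_mul]
    linear_combination (-(c * s * sg (e j) * ev (p j) m)) * h
  rw [this, sg_smul_mem hs]

theorem basic_sp {K : Set (Fin 4 → ℝ)} (h : Basic K) : Basic (sp p q e h1 h2 ⁻¹' K) := by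
  constructor
  · exact h.conv.linear_preimage ((sp p q e h1 h2 : (Fin 4 → ℝ) →ₗ[ℝ] (Fin 4 → ℝ)))
  · have := (sp p q e h1 h2).toHomeomorph.preimage_interior K
    have h3 : interior (sp p q e h1 h2 ⁻¹' K) = sp p q e h1 h2 ⁻¹' interior K := this.symm
    rw [h3]
    exact h.inte.preimage (sp p q e h1 h2).surjective
  · intro x hx
    simp only [mem_preimage, map_neg]
    exact h.symm _ hx
  · intro i
    have h3 : sp p q e h1 h2 (Pi.single i 1) = sg (e i) • ev (p i) := sp_ev h1 h2 i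
    simp only [mem_preimage]
    rw [h3, sg_smul_mem h.symm]
    exact h.axis _

theorem sg_cases (b : Bool) : sg b = 1 ∨ sg b = -1 := by cases b <;> simp [sg]

theorem diag_sp {K : Set (Fin 4 → ℝ)} (h : Basic K) (hd : Diag K) :
    Diag (sp p q e h1 h2 ⁻¹' K) := by
  have hp : ∀ i j, i ≠ j → p i ≠ p j := by
    intro i j hij h
    apply hij
    rw [← h1 i, ← h1 j, h]
  have hss : ∀ (s : ℝ) (i j : Fin 4), s = 1 ∨ s = -1 →
      s * (sg (e i) * sg (e j)) = 1 ∨ s * (sg (e i) * sg (e j)) = -1 := by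
    intro s i j hs
    rcases hs with rfl | rfl <;> rcases sg_cases (e i) with h | h <;>
      rcases sg_cases (e j) with h' | h' <;> rw [h, h'] <;> norm_num
  have hneg : ∀ (c s : ℝ) (i j : Fin 4), c • (ev i - s • ev j) = c • (ev i + (-s) • ev j) := by
    intro c s i j
    rw [neg_smul, sub_eq_add_neg]
  constructor
  intro i j hij s hs a b h3 h4 h5 h6 h7
  have := hd.d (p i) (p j) (hp i j hij) _ (hss s i j hs) a b h3 h4 h5 h6 h7
  simp only [hneg, mem_preimage] at this ⊢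
  rw [sp_pair h1 h2 h.symm, sp_pair h1 h2 h.symm, neg_mul]
  exact this

theorem lights_sp {K : Set (Fin 4 → ℝ)} {N : ℕ} (h : Lights N (sp p q e h1 h2 ⁻¹' K)) :
    Lights N K := by
  classical
  obtain ⟨S, hS, hl⟩ := h
  refine ⟨S.image (sp p q e h1 h2), Finset.card_image_le.trans hS, fun y hy => ?_⟩
  have hy' : (sp p q e h1 h2).symm y ∈ Skel 4 := by
    obtain ⟨hb, i, j, hij, hi, hj⟩ := hy
    have habs : ∀ m, |(sp p q e h1 h2).symm y m| = |y (p m)| := by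
      intro m
      rw [sp_symm_apply, abs_mul, abs_sg, one_mul]
    refine ⟨fun m => by rw [habs]; exact hb _, q i, q j, ?_, ?_, ?_⟩
    · intro h
      apply hij
      rw [← h2 i, ← h2 j, h]
    · rw [habs, h2]; exact hi
    · rw [habs, h2]; exact hj
  obtain ⟨t, ht, τ, hτ, hi⟩ := hl _ hy'
  refine ⟨_, Finset.mem_image_of_mem _ ht, τ, hτ, ?_⟩
  have h3 : interior (sp p q e h1 h2 ⁻¹' K) = sp p q e h1 h2 ⁻¹' interior K :=
    ((sp p q e h1 h2).toHomeomorph.preimage_interior K).symm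
  rw [h3, mem_preimage, map_add, map_smul, ContinuousLinearEquiv.apply_symm_apply] at hi
  exact hi

end

/-- the point `(2/3) (e i - s e j)` is in the body, `s` the sign of `b` -/
def Av (K : Set (Fin 4 → ℝ)) (i j : Fin 4) (b : Bool) : Prop :=
  (2 / 3 : ℝ) • (ev i + (-sg b) • ev j) ∈ K

theorem Av.symm {K : Set (Fin 4 → ℝ)} (h : Basic K) {i j : Fin 4} {b : Bool}
    (ha : Av K i j b) : Av K j i b := by
  unfold Av at *
  cases b with
  | true =>
    have := h.symm _ ha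
    convert this using 1
    simp only [sg, if_true, neg_smul, one_smul]
    rw [← smul_neg]; congr 1; abel
  | false =>
    convert ha using 1
    simp only [sg, Bool.false_eq_true, if_false, neg_neg, one_smul]
    congr 1; abel

theorem av_sp {K : Set (Fin 4 → ℝ)} (h : Basic K) {p q : Fin 4 → Fin 4} {e : Fin 4 → Bool}
    (h1 : ∀ i, q (p i) = i) (h2 : ∀ i, p (q i) = i) (i j : Fin 4) (b : Bool)
    (ha : Av K (p i) (p j) b) :
    Av (sp p q e h1 h2 ⁻¹' K) i j (b == (e i == e j)) := by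
  unfold Av at *
  rw [mem_preimage, sp_pair h1 h2 h.symm]
  have : -sg (b == (e i == e j)) * (sg (e i) * sg (e j)) = -sg b := by
    cases b <;> cases e i <;> cases e j <;> simp [sg]
  rw [this]
  exact ha

/-- a witness for the normalisation of the signs -/
structure Wit where
  c : ℕ
  p : Fin 4 → Fin 4
  q : Fin 4 → Fin 4
  e : Fin 4 → Bool

/-- the sign patterns of the three classes -/
def cp (c : ℕ) (i j : Fin 4) : Bool :=
  match c with
  | 0 => true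
  | 1 => !((decide (i = 0) && decide (j = 1)))
  | _ => false

def bb (b01 b02 b03 b12 b13 b23 : Bool) (i j : Fin 4) : Bool :=
  match i.val, j.val with
  | 0, 1 => b01
  | 1, 0 => b01
  | 0, 2 => b02
  | 2, 0 => b02
  | 0, 3 => b03
  | 3, 0 => b03
  | 1, 2 => b12
  | 2, 1 => b12
  | 1, 3 => b13
  | 3, 1 => b13
  | 2, 3 => b23
  | 3, 2 => b23
  | _, _ => true

def Wit.good (w : Wit) (b : Fin 4 → Fin 4 → Bool) : Bool :=
  decide (w.c ≤ 2) && decide (∀ i, w.q (w.p i) = i) && decide (∀ i, w.p (w.q i) = i) &&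
  decide (∀ i j, i < j → (b (w.p i) (w.p j) == (w.e i == w.e j)) = cp w.c i j)

def wits : List Wit :=
  [⟨0, ![0, 1, 2, 3], ![0, 1, 2, 3], ![true, true, true, true]⟩,
   ⟨1, ![2, 3, 0, 1], ![2, 3, 0, 1], ![true, true, true, true]⟩,
   ⟨1, ![1, 3, 0, 2], ![2, 0, 3, 1], ![true, true, true, true]⟩,
   ⟨1, ![0, 3, 1, 2], ![0, 2, 3, 1], ![true, false, true, true]⟩,
   ⟨1, ![1, 2, 0, 3], ![2, 0, 1, 3], ![true, true, true, true]⟩,
   ⟨1, ![0, 2, 1, 3], ![0, 2, 1, 3], ![true, false, true, true]⟩,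
   ⟨1, ![0, 1, 2, 3], ![0, 1, 2, 3], ![true, false, true, true]⟩,
   ⟨2, ![0, 1, 2, 3], ![0, 1, 2, 3], ![false, true, true, true]⟩,
   ⟨1, ![0, 3, 1, 2], ![0, 2, 3, 1], ![true, true, true, true]⟩,
   ⟨1, ![1, 3, 0, 2], ![2, 0, 3, 1], ![true, false, true, true]⟩,
   ⟨1, ![2, 3, 0, 1], ![2, 3, 0, 1], ![true, false, true, true]⟩,
   ⟨0, ![0, 1, 2, 3], ![0, 1, 2, 3], ![false, false, false, true]⟩,
   ⟨2, ![0, 1, 2, 3], ![0, 1, 2, 3], ![true, false, false, true]⟩,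
   ⟨1, ![0, 1, 2, 3], ![0, 1, 2, 3], ![false, true, false, true]⟩,
   ⟨1, ![0, 2, 1, 3], ![0, 2, 1, 3], ![false, true, false, true]⟩,
   ⟨1, ![1, 2, 0, 3], ![2, 0, 1, 3], ![false, false, false, true]⟩,
   ⟨1, ![0, 2, 1, 3], ![0, 2, 1, 3], ![true, true, true, true]⟩,
   ⟨1, ![1, 2, 0, 3], ![2, 0, 1, 3], ![true, false, true, true]⟩,
   ⟨2, ![0, 1, 2, 3], ![0, 1, 2, 3], ![false, true, false, true]⟩,
   ⟨1, ![0, 1, 2, 3], ![0, 1, 2, 3], ![true, false, false, true]⟩,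
   ⟨1, ![2, 3, 0, 1], ![2, 3, 0, 1], ![false, true, true, true]⟩,
   ⟨0, ![0, 1, 2, 3], ![0, 1, 2, 3], ![true, true, false, true]⟩,
   ⟨1, ![0, 3, 1, 2], ![0, 2, 3, 1], ![false, true, false, true]⟩,
   ⟨1, ![1, 3, 0, 2], ![2, 0, 3, 1], ![false, false, false, true]⟩,
   ⟨1, ![0, 1, 2, 3], ![0, 1, 2, 3], ![false, true, true, true]⟩,
   ⟨2, ![0, 1, 2, 3], ![0, 1, 2, 3], ![true, false, true, true]⟩,
   ⟨1, ![1, 2, 0, 3], ![2, 0, 1, 3], ![false, true, false, true]⟩,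
   ⟨1, ![0, 2, 1, 3], ![0, 2, 1, 3], ![false, false, false, true]⟩,
   ⟨1, ![1, 3, 0, 2], ![2, 0, 3, 1], ![false, true, false, true]⟩,
   ⟨1, ![0, 3, 1, 2], ![0, 2, 3, 1], ![false, false, false, true]⟩,
   ⟨0, ![0, 1, 2, 3], ![0, 1, 2, 3], ![false, false, true, true]⟩,
   ⟨1, ![2, 3, 0, 1], ![2, 3, 0, 1], ![false, false, true, true]⟩,
   ⟨1, ![0, 1, 2, 3], ![0, 1, 2, 3], ![true, true, true, true]⟩,
   ⟨2, ![0, 1, 2, 3], ![0, 1, 2, 3], ![false, false, true, true]⟩,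
   ⟨1, ![1, 2, 0, 3], ![2, 0, 1, 3], ![false, true, true, true]⟩,
   ⟨1, ![0, 2, 1, 3], ![0, 2, 1, 3], ![true, false, false, true]⟩,
   ⟨1, ![1, 3, 0, 2], ![2, 0, 3, 1], ![false, true, true, true]⟩,
   ⟨1, ![0, 3, 1, 2], ![0, 2, 3, 1], ![true, false, false, true]⟩,
   ⟨0, ![0, 1, 2, 3], ![0, 1, 2, 3], ![true, false, true, true]⟩,
   ⟨1, ![2, 3, 0, 1], ![2, 3, 0, 1], ![false, false, false, true]⟩,
   ⟨1, ![0, 2, 1, 3], ![0, 2, 1, 3], ![false, true, true, true]⟩,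
   ⟨1, ![1, 2, 0, 3], ![2, 0, 1, 3], ![true, false, false, true]⟩,
   ⟨2, ![0, 1, 2, 3], ![0, 1, 2, 3], ![true, true, false, true]⟩,
   ⟨1, ![0, 1, 2, 3], ![0, 1, 2, 3], ![false, false, false, true]⟩,
   ⟨1, ![2, 3, 0, 1], ![2, 3, 0, 1], ![false, true, false, true]⟩,
   ⟨0, ![0, 1, 2, 3], ![0, 1, 2, 3], ![false, true, false, true]⟩,
   ⟨1, ![0, 3, 1, 2], ![0, 2, 3, 1], ![true, true, false, true]⟩,
   ⟨1, ![1, 3, 0, 2], ![2, 0, 3, 1], ![false, false, true, true]⟩,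
   ⟨1, ![0, 3, 1, 2], ![0, 2, 3, 1], ![false, true, true, true]⟩,
   ⟨1, ![1, 3, 0, 2], ![2, 0, 3, 1], ![true, false, false, true]⟩,
   ⟨1, ![2, 3, 0, 1], ![2, 3, 0, 1], ![true, false, false, true]⟩,
   ⟨0, ![0, 1, 2, 3], ![0, 1, 2, 3], ![true, false, false, true]⟩,
   ⟨2, ![0, 1, 2, 3], ![0, 1, 2, 3], ![false, false, false, true]⟩,
   ⟨1, ![0, 1, 2, 3], ![0, 1, 2, 3], ![true, true, false, true]⟩,
   ⟨1, ![0, 2, 1, 3], ![0, 2, 1, 3], ![true, true, false, true]⟩,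
   ⟨1, ![1, 2, 0, 3], ![2, 0, 1, 3], ![false, false, true, true]⟩,
   ⟨0, ![0, 1, 2, 3], ![0, 1, 2, 3], ![false, true, true, true]⟩,
   ⟨1, ![2, 3, 0, 1], ![2, 3, 0, 1], ![true, true, false, true]⟩,
   ⟨1, ![1, 3, 0, 2], ![2, 0, 3, 1], ![true, true, false, true]⟩,
   ⟨1, ![0, 3, 1, 2], ![0, 2, 3, 1], ![false, false, true, true]⟩,
   ⟨1, ![1, 2, 0, 3], ![2, 0, 1, 3], ![true, true, false, true]⟩,
   ⟨1, ![0, 2, 1, 3], ![0, 2, 1, 3], ![false, false, true, true]⟩,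
   ⟨1, ![0, 1, 2, 3], ![0, 1, 2, 3], ![false, false, true, true]⟩,
   ⟨2, ![0, 1, 2, 3], ![0, 1, 2, 3], ![true, true, true, true]⟩]

theorem wits_spec : ∀ b01 b02 b03 b12 b13 b23 : Bool,
    (wits.any fun w => w.good (bb b01 b02 b03 b12 b13 b23)) = true := by
  decide +kernel

theorem normalise {K : Set (Fin 4 → ℝ)} (h : Basic K) (hd : Diag K) {N : ℕ}
    (H : ∀ (K' : Set (Fin 4 → ℝ)) (c : ℕ), c ≤ 2 → Basic K' → Diag K' →
      (∀ i j, i < j → Av K' i j (cp c i j)) → Lights N K') : Lights N K := by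
  have hav : ∀ i j, i ≠ j → ∃ b, Av K i j b := by
    intro i j hij
    rcases hd.d1 i j hij 1 (Or.inl rfl) with h | h
    · exact ⟨false, by simpa [Av, sg] using h⟩
    · refine ⟨true, ?_⟩
      simp only [Av, sg, if_true, neg_smul, one_smul] at h ⊢
      rw [← sub_eq_add_neg]
      exact h
  obtain ⟨b01, a01⟩ := hav 0 1 (by decide)
  obtain ⟨b02, a02⟩ := hav 0 2 (by decide)
  obtain ⟨b03, a03⟩ := hav 0 3 (by decide)
  obtain ⟨b12, a12⟩ := hav 1 2 (by decide)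
  obtain ⟨b13, a13⟩ := hav 1 3 (by decide)
  obtain ⟨b23, a23⟩ := hav 2 3 (by decide)
  have hall : ∀ i j, i ≠ j → Av K i j (bb b01 b02 b03 b12 b13 b23 i j) := by
    intro i j hij
    fin_cases i <;> fin_cases j <;> first | (exfalso; exact hij rfl) | skip
    · exact a01
    · exact a02
    · exact a03
    · exact a01.symm h
    · exact a12
    · exact a13
    · exact a02.symm h
    · exact a12.symm h
    · exact a23
    · exact a03.symm h
    · exact a13.symm h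
    · exact a23.symm h
  obtain ⟨w, -, hw⟩ := List.any_eq_true.1 (wits_spec b01 b02 b03 b12 b13 b23)
  simp only [Wit.good, Bool.and_eq_true, decide_eq_true_eq] at hw
  obtain ⟨⟨⟨hc, h1⟩, h2⟩, h3⟩ := hw
  apply lights_sp (e := w.e) h1 h2
  apply H _ w.c hc (basic_sp h1 h2 h) (diag_sp h1 h2 h hd)
  intro i j hij
  rw [← h3 i j hij]
  apply av_sp h h1 h2
  apply hall
  intro h4
  apply hij.ne
  rw [← h1 i, ← h1 j, h4]

/-- the second normalisation, in the class where all signs are positive -/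
theorem normalise0 {K : Set (Fin 4 → ℝ)} (h : Basic K) (hd : Diag K) {N : ℕ}
    (h0 : ∀ i j, i < j → Av K i j true)
    (Ha : ∀ K' : Set (Fin 4 → ℝ), Basic K' →
      (∀ i j, i < j → (50 / 69 : ℝ) • (ev i - ev j) ∈ K') → Lights N K')
    (Hb : ∀ K' : Set (Fin 4 → ℝ), Basic K' → (∀ i j, i < j → Av K' i j true) →
      (50 / 81 : ℝ) • (ev 0 + ev 1) ∈ K' → Lights N K') : Lights N K := by
  by_cases hall : ∀ i j, i < j → (50 / 69 : ℝ) • (ev i - ev j) ∈ K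
  · exact Ha K h hall
  · push Not at hall
    obtain ⟨i, j, hij, hno⟩ := hall
    have h81 : (50 / 81 : ℝ) • (ev i + ev j) ∈ K := by
      rcases hd.d2 i j hij.ne (-1) (Or.inr rfl) with h | h
      · exfalso
        apply hno
        rw [neg_smul, one_smul, ← sub_eq_add_neg] at h
        exact h
      · rw [neg_smul, one_smul, sub_neg_eq_add] at h
        exact h
    have hall' : ∀ a b, a ≠ b → Av K a b true := by
      intro a b hab
      rcases lt_or_gt_of_ne hab with h' | h'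
      · exact h0 a b h'
      · exact (h0 b a h').symm h
    have main : ∀ (p q : Fin 4 → Fin 4) (h1 : ∀ i, q (p i) = i) (h2 : ∀ i, p (q i) = i),
        p 0 = i → p 1 = j → Lights N K := by
      intro p q h1 h2 hp0 hp1
      apply lights_sp (e := fun _ => true) h1 h2
      apply Hb _ (basic_sp h1 h2 h)
      · intro a b hab
        have := av_sp (e := fun _ => true) h h1 h2 a b true (hall' _ _ (by
          intro h4
          apply hab.ne
          rw [← h1 a, ← h1 b, h4]))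
        simpa using this
      · have := (sp_pair (e := fun _ => true) h1 h2 h.symm (50 / 81) 1 0 1).2 (by
          rw [hp0, hp1]
          simpa [sg] using h81)
        simpa using this
    have hcases : (i = 0 ∧ j = 1) ∨ (i = 0 ∧ j = 2) ∨ (i = 0 ∧ j = 3) ∨ (i = 1 ∧ j = 2) ∨
        (i = 1 ∧ j = 3) ∨ (i = 2 ∧ j = 3) := by
      revert hij
      clear hno h81 main
      revert i j
      decide
    rcases hcases with ⟨ha, hb⟩ | ⟨ha, hb⟩ | ⟨ha, hb⟩ | ⟨ha, hb⟩ | ⟨ha, hb⟩ | ⟨ha, hb⟩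
    · exact main ![0, 1, 2, 3] ![0, 1, 2, 3] (by decide) (by decide) ha.symm hb.symm
    · exact main ![0, 2, 1, 3] ![0, 2, 1, 3] (by decide) (by decide) ha.symm hb.symm
    · exact main ![0, 3, 2, 1] ![0, 3, 2, 1] (by decide) (by decide) ha.symm hb.symm
    · exact main ![1, 2, 0, 3] ![2, 0, 1, 3] (by decide) (by decide) ha.symm hb.symm
    · exact main ![1, 3, 2, 0] ![3, 0, 2, 1] (by decide) (by decide) ha.symm hb.symm
    · exact main ![2, 3, 0, 1] ![2, 3, 0, 1] (by decide) (by decide) ha.symm hb.symm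

/-- the pairs which have to be short in the third normalisation -/
def rS (c : ℕ) (i j : Fin 4) : Bool :=
  match c with
  | 0 => false
  | 1 => decide (i = 0) && decide (j = 1)
  | 2 => decide (i = 0) && (decide (j = 1) || decide (j = 2))
  | 3 => (decide (i = 0) && decide (j = 1)) || (decide (i = 2) && decide (j = 3))
  | 4 => decide (i = 0)
  | 5 => decide (j = 1) || decide (j = 2)
  | 6 => (decide (i = 0) && (decide (j = 1) || decide (j = 2))) ||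
      (decide (i = 1) && decide (j = 3))
  | 7 => (decide (i = 0) && decide (j = 1)) || (decide (i = 1) && decide (j = 2)) ||
      (decide (i = 2) && decide (j = 3)) || (decide (i = 0) && decide (j = 3))
  | _ => decide (i = 0) || decide (j = 2)

/-- the pairs which have to be long in the third normalisation -/
def rL (c : ℕ) (i j : Fin 4) : Bool :=
  match c with
  | 7 => false
  | _ => !(rS c i j)

def Wit.good2 (w : Wit) (b : Fin 4 → Fin 4 → Bool) : Bool :=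
  decide (w.c ≤ 8) && decide (∀ i, w.q (w.p i) = i) && decide (∀ i, w.p (w.q i) = i) &&
  decide (∀ i j, i < j → rL w.c i j = true → b (w.p i) (w.p j) = true) &&
  decide (∀ i j, i < j → rS w.c i j = true → b (w.p i) (w.p j) = false)

def wits2 : List Wit :=
  [⟨7, ![0, 1, 2, 3], ![0, 1, 2, 3], fun _ => true⟩,
   ⟨7, ![0, 2, 1, 3], ![0, 2, 1, 3], fun _ => true⟩,
   ⟨8, ![0, 1, 2, 3], ![0, 1, 2, 3], fun _ => true⟩,
   ⟨7, ![0, 1, 3, 2], ![0, 1, 3, 2], fun _ => true⟩,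
   ⟨8, ![0, 1, 3, 2], ![0, 1, 3, 2], fun _ => true⟩,
   ⟨8, ![0, 2, 3, 1], ![0, 3, 1, 2], fun _ => true⟩,
   ⟨4, ![0, 1, 2, 3], ![0, 1, 2, 3], fun _ => true⟩,
   ⟨8, ![1, 0, 2, 3], ![1, 0, 2, 3], fun _ => true⟩,
   ⟨8, ![2, 0, 1, 3], ![1, 2, 0, 3], fun _ => true⟩,
   ⟨5, ![0, 1, 2, 3], ![0, 1, 2, 3], fun _ => true⟩,
   ⟨6, ![0, 1, 2, 3], ![0, 1, 2, 3], fun _ => true⟩,
   ⟨6, ![0, 2, 1, 3], ![0, 2, 1, 3], fun _ => true⟩,
   ⟨2, ![0, 1, 2, 3], ![0, 1, 2, 3], fun _ => true⟩,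
   ⟨8, ![1, 0, 3, 2], ![1, 0, 3, 2], fun _ => true⟩,
   ⟨6, ![0, 1, 3, 2], ![0, 1, 3, 2], fun _ => true⟩,
   ⟨8, ![3, 0, 1, 2], ![1, 2, 3, 0], fun _ => true⟩,
   ⟨5, ![0, 1, 3, 2], ![0, 1, 3, 2], fun _ => true⟩,
   ⟨6, ![0, 3, 1, 2], ![0, 2, 3, 1], fun _ => true⟩,
   ⟨2, ![0, 1, 3, 2], ![0, 1, 3, 2], fun _ => true⟩,
   ⟨8, ![1, 2, 3, 0], ![3, 0, 1, 2], fun _ => true⟩,
   ⟨4, ![1, 0, 2, 3], ![1, 0, 2, 3], fun _ => true⟩,
   ⟨6, ![1, 2, 0, 3], ![2, 0, 1, 3], fun _ => true⟩,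
   ⟨2, ![1, 0, 2, 3], ![1, 0, 2, 3], fun _ => true⟩,
   ⟨6, ![1, 3, 0, 2], ![2, 0, 3, 1], fun _ => true⟩,
   ⟨2, ![1, 0, 3, 2], ![1, 0, 3, 2], fun _ => true⟩,
   ⟨3, ![0, 1, 2, 3], ![0, 1, 2, 3], fun _ => true⟩,
   ⟨1, ![0, 1, 2, 3], ![0, 1, 2, 3], fun _ => true⟩,
   ⟨8, ![2, 0, 3, 1], ![1, 3, 0, 2], fun _ => true⟩,
   ⟨6, ![0, 2, 3, 1], ![0, 3, 1, 2], fun _ => true⟩,
   ⟨8, ![3, 0, 2, 1], ![1, 3, 2, 0], fun _ => true⟩,
   ⟨6, ![0, 3, 2, 1], ![0, 3, 2, 1], fun _ => true⟩,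
   ⟨5, ![0, 2, 3, 1], ![0, 3, 1, 2], fun _ => true⟩,
   ⟨2, ![0, 2, 3, 1], ![0, 3, 1, 2], fun _ => true⟩,
   ⟨8, ![2, 1, 3, 0], ![3, 1, 0, 2], fun _ => true⟩,
   ⟨6, ![1, 2, 3, 0], ![3, 0, 1, 2], fun _ => true⟩,
   ⟨4, ![2, 0, 1, 3], ![1, 2, 0, 3], fun _ => true⟩,
   ⟨2, ![2, 0, 1, 3], ![1, 2, 0, 3], fun _ => true⟩,
   ⟨6, ![2, 3, 0, 1], ![2, 3, 0, 1], fun _ => true⟩,
   ⟨3, ![0, 2, 1, 3], ![0, 2, 1, 3], fun _ => true⟩,
   ⟨2, ![2, 0, 3, 1], ![1, 3, 0, 2], fun _ => true⟩,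
   ⟨1, ![0, 2, 1, 3], ![0, 2, 1, 3], fun _ => true⟩,
   ⟨8, ![3, 1, 2, 0], ![3, 1, 2, 0], fun _ => true⟩,
   ⟨6, ![1, 3, 2, 0], ![3, 0, 2, 1], fun _ => true⟩,
   ⟨6, ![2, 3, 1, 0], ![3, 2, 0, 1], fun _ => true⟩,
   ⟨3, ![0, 3, 1, 2], ![0, 2, 3, 1], fun _ => true⟩,
   ⟨4, ![3, 0, 1, 2], ![1, 2, 3, 0], fun _ => true⟩,
   ⟨2, ![3, 0, 1, 2], ![1, 2, 3, 0], fun _ => true⟩,
   ⟨2, ![3, 0, 2, 1], ![1, 3, 2, 0], fun _ => true⟩,
   ⟨1, ![0, 3, 1, 2], ![0, 2, 3, 1], fun _ => true⟩,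
   ⟨5, ![1, 2, 3, 0], ![3, 0, 1, 2], fun _ => true⟩,
   ⟨2, ![1, 2, 3, 0], ![3, 0, 1, 2], fun _ => true⟩,
   ⟨2, ![2, 1, 3, 0], ![3, 1, 0, 2], fun _ => true⟩,
   ⟨1, ![1, 2, 0, 3], ![2, 0, 1, 3], fun _ => true⟩,
   ⟨2, ![3, 1, 2, 0], ![3, 1, 2, 0], fun _ => true⟩,
   ⟨1, ![1, 3, 0, 2], ![2, 0, 3, 1], fun _ => true⟩,
   ⟨1, ![2, 3, 0, 1], ![2, 3, 0, 1], fun _ => true⟩,
   ⟨0, ![0, 1, 2, 3], ![0, 1, 2, 3], fun _ => true⟩]

theorem wits2_spec : ∀ b01 b02 b03 b12 b13 b23 : Bool,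
    (wits2.any fun w => w.good2 (bb b01 b02 b03 b12 b13 b23)) = true := by
  decide +kernel

/-- the third normalisation, in the class where all signs are negative -/
theorem normalise2 {K : Set (Fin 4 → ℝ)} (h : Basic K) (hd : Diag K) {N : ℕ}
    (h0 : ∀ i j, i < j → Av K i j false)
    (H : ∀ (K' : Set (Fin 4 → ℝ)) (c : ℕ), c ≤ 8 → Basic K' →
      (∀ i j, i < j → Av K' i j false) →
      (∀ i j, i < j → rL c i j = true → (50 / 69 : ℝ) • (ev i + ev j) ∈ K') →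
      (∀ i j, i < j → rS c i j = true → (50 / 81 : ℝ) • (ev i - ev j) ∈ K') → Lights N K') :
    Lights N K := by
  classical
  set L : Fin 4 → Fin 4 → Bool := fun i j => decide ((50 / 69 : ℝ) • (ev i + ev j) ∈ K) with hL
  have hLc : ∀ i j, L i j = L j i := by
    intro i j
    simp only [hL]
    congr 1
    rw [add_comm]
  have hbb : ∀ i j, i ≠ j → bb (L 0 1) (L 0 2) (L 0 3) (L 1 2) (L 1 3) (L 2 3) i j = L i j := by
    intro i j hij
    fin_cases i <;> fin_cases j <;> first | (exfalso; exact hij rfl) | skip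
    all_goals first | rfl | exact hLc _ _
  obtain ⟨w, -, hw⟩ := List.any_eq_true.1
    (wits2_spec (L 0 1) (L 0 2) (L 0 3) (L 1 2) (L 1 3) (L 2 3))
  simp only [Wit.good2, Bool.and_eq_true, decide_eq_true_eq] at hw
  obtain ⟨⟨⟨⟨hc, h1⟩, h2⟩, h3⟩, h4⟩ := hw
  have hne : ∀ i j, i < j → w.p i ≠ w.p j := by
    intro i j hij h5
    apply hij.ne
    rw [← h1 i, ← h1 j, h5]
  have hall' : ∀ a b, a ≠ b → Av K a b false := by
    intro a b hab
    rcases lt_or_gt_of_ne hab with h' | h'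
    · exact h0 a b h'
    · exact (h0 b a h').symm h
  apply lights_sp (e := fun _ => true) h1 h2
  apply H _ w.c hc (basic_sp h1 h2 h)
  · intro i j hij
    have := av_sp (e := fun _ => true) h h1 h2 i j false (hall' _ _ (hne i j hij))
    simpa using this
  · intro i j hij hr
    have h5 := h3 i j hij hr
    rw [hbb _ _ (hne i j hij)] at h5
    have h6 : (50 / 69 : ℝ) • (ev (w.p i) + ev (w.p j)) ∈ K := by
      simpa [hL] using h5
    have := (sp_pair (e := fun _ => true) h1 h2 h.symm (50 / 69) 1 i j).2 (by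
      simpa [sg] using h6)
    simpa using this
  · intro i j hij hr
    have h5 := h4 i j hij hr
    rw [hbb _ _ (hne i j hij)] at h5
    have h6 : (50 / 69 : ℝ) • (ev (w.p i) + ev (w.p j)) ∉ K := by
      simpa [hL] using h5
    have h7 : (50 / 81 : ℝ) • (ev (w.p i) - ev (w.p j)) ∈ K := by
      rcases hd.d2 (w.p i) (w.p j) (hne i j hij) 1 (Or.inl rfl) with h8 | h8
      · exfalso
        apply h6
        rw [one_smul] at h8
        exact h8
      · rw [one_smul] at h8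
        exact h8
    have := (sp_pair (e := fun _ => true) h1 h2 h.symm (50 / 81) (-1) i j).2 (by
      simpa [sg, sub_eq_add_neg] using h7)
    simpa [sub_eq_add_neg] using this

end Pool.Agent.Y512.S4
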