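import Mathlib
import Pool.Agent.Y512.S4.Classes
import Pool.Agent.Y512.S4.D0a
import Pool.Agent.Y512.S4.D0b
import Pool.Agent.Y512.S4.D1
import Pool.Agent.Y512.S4.D2c
import Pool.Agent.Y512.S4.D2e
import Pool.Agent.Y512.S4.D2V
import Pool.Agent.Y512.S4.D2h
import Pool.Agent.Y512.S4.D2S
import Pool.Agent.Y512.S4.D2T
import Pool.Agent.Y512.S4.D2P
import Pool.Agent.Y512.S4.D2Q
import Pool.Agent.Y512.S4.D2W

set_option autoImplicit false

/-!
# Symmetric convex bodies in dimension four are covered by `34` translates of the interior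
-/

namespace Pool.Agent.Y512.S4

open Set Topology

theorem atoms0a {K : Set (Fin 4 → ℝ)} (h : ∀ i j, i < j → (50 / 69 : ℝ) • (ev i - ev j) ∈ K) :
    AtomsIn D0a.At K := by
  have h01 := h 0 1 (by decide)
  have h02 := h 0 2 (by decide)
  have h03 := h 0 3 (by decide)
  have h12 := h 1 2 (by decide)
  have h13 := h 1 3 (by decide)
  have h23 := h 2 3 (by decide)
  intro A hA
  simp only [D0a.At, List.mem_cons, List.not_mem_nil, or_false] at hA
  rcases hA with rfl | rfl | rfl | rfl | rfl | rfl
  all_goals refine ⟨by norm_num, ?_⟩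
  · convert h01 using 1
    funext m; fin_cases m <;> simp [Z4.r, ev, cp, sg] <;> norm_num
  · convert h02 using 1
    funext m; fin_cases m <;> simp [Z4.r, ev, cp, sg] <;> norm_num
  · convert h03 using 1
    funext m; fin_cases m <;> simp [Z4.r, ev, cp, sg] <;> norm_num
  · convert h12 using 1
    funext m; fin_cases m <;> simp [Z4.r, ev, cp, sg] <;> norm_num
  · convert h13 using 1
    funext m; fin_cases m <;> simp [Z4.r, ev, cp, sg] <;> norm_num
  · convert h23 using 1
    funext m; fin_cases m <;> simp [Z4.r, ev, cp, sg] <;> norm_num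

theorem atoms0b {K : Set (Fin 4 → ℝ)} (h : ∀ i j, i < j → Av K i j true)
    (h' : (50 / 81 : ℝ) • (ev 0 + ev 1) ∈ K) :
    AtomsIn D0b.At K := by
  have h01 := h 0 1 (by decide)
  have h02 := h 0 2 (by decide)
  have h03 := h 0 3 (by decide)
  have h12 := h 1 2 (by decide)
  have h13 := h 1 3 (by decide)
  have h23 := h 2 3 (by decide)
  unfold Av at h01 h02 h03 h12 h13 h23
  intro A hA
  simp only [D0b.At, List.mem_cons, List.not_mem_nil, or_false] at hA
  rcases hA with rfl | rfl | rfl | rfl | rfl | rfl | rfl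
  all_goals refine ⟨by norm_num, ?_⟩
  · convert h01 using 1
    funext m; fin_cases m <;> simp [Z4.r, ev, cp, sg] <;> norm_num
  · convert h02 using 1
    funext m; fin_cases m <;> simp [Z4.r, ev, cp, sg] <;> norm_num
  · convert h03 using 1
    funext m; fin_cases m <;> simp [Z4.r, ev, cp, sg] <;> norm_num
  · convert h12 using 1
    funext m; fin_cases m <;> simp [Z4.r, ev, cp, sg] <;> norm_num
  · convert h13 using 1
    funext m; fin_cases m <;> simp [Z4.r, ev, cp, sg] <;> norm_num
  · convert h23 using 1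
    funext m; fin_cases m <;> simp [Z4.r, ev, cp, sg] <;> norm_num
  · convert h' using 1
    funext m; fin_cases m <;> simp [Z4.r, ev, cp, sg] <;> norm_num

theorem atoms1 {K : Set (Fin 4 → ℝ)} (h : ∀ i j, i < j → Av K i j (cp 1 i j)) :
    AtomsIn D1.At K := by
  have h01 := h 0 1 (by decide)
  have h02 := h 0 2 (by decide)
  have h03 := h 0 3 (by decide)
  have h12 := h 1 2 (by decide)
  have h13 := h 1 3 (by decide)
  have h23 := h 2 3 (by decide)
  unfold Av at h01 h02 h03 h12 h13 h23
  intro A hA
  simp only [D1.At, List.mem_cons, List.not_mem_nil, or_false] at hA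
  rcases hA with rfl | rfl | rfl | rfl | rfl | rfl
  all_goals refine ⟨by norm_num, ?_⟩
  · convert h01 using 1
    funext m; fin_cases m <;> simp [Z4.r, ev, cp, sg] <;> norm_num
  · convert h02 using 1
    funext m; fin_cases m <;> simp [Z4.r, ev, cp, sg] <;> norm_num
  · convert h03 using 1
    funext m; fin_cases m <;> simp [Z4.r, ev, cp, sg] <;> norm_num
  · convert h12 using 1
    funext m; fin_cases m <;> simp [Z4.r, ev, cp, sg] <;> norm_num
  · convert h13 using 1
    funext m; fin_cases m <;> simp [Z4.r, ev, cp, sg] <;> norm_num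
  · convert h23 using 1
    funext m; fin_cases m <;> simp [Z4.r, ev, cp, sg] <;> norm_num

theorem atoms2c {K : Set (Fin 4 → ℝ)} (h : ∀ i j, i < j → Av K i j false)
    (h' : ∀ i j, i < j → rL 0 i j = true → (50 / 69 : ℝ) • (ev i + ev j) ∈ K)
    (h'' : ∀ i j, i < j → rS 0 i j = true → (50 / 81 : ℝ) • (ev i - ev j) ∈ K) :
    AtomsIn D2c.At K := by
  have h01 := h 0 1 (by decide)
  have h02 := h 0 2 (by decide)
  have h03 := h 0 3 (by decide)
  have h12 := h 1 2 (by decide)
  have h13 := h 1 3 (by decide)
  have h23 := h 2 3 (by decide)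
  unfold Av at h01 h02 h03 h12 h13 h23
  have l01 := h' 0 1 (by decide) (by decide)
  have l02 := h' 0 2 (by decide) (by decide)
  have l03 := h' 0 3 (by decide) (by decide)
  have l12 := h' 1 2 (by decide) (by decide)
  have l13 := h' 1 3 (by decide) (by decide)
  have l23 := h' 2 3 (by decide) (by decide)
  intro A hA
  simp only [D2c.At, List.mem_cons, List.not_mem_nil, or_false] at hA
  rcases hA with rfl | rfl | rfl | rfl | rfl | rfl
  all_goals refine ⟨by norm_num, ?_⟩
  · convert l01 using 1
    funext m; fin_cases m <;> simp [Z4.r, ev, cp, sg] <;> norm_num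
  · convert l02 using 1
    funext m; fin_cases m <;> simp [Z4.r, ev, cp, sg] <;> norm_num
  · convert l03 using 1
    funext m; fin_cases m <;> simp [Z4.r, ev, cp, sg] <;> norm_num
  · convert l12 using 1
    funext m; fin_cases m <;> simp [Z4.r, ev, cp, sg] <;> norm_num
  · convert l13 using 1
    funext m; fin_cases m <;> simp [Z4.r, ev, cp, sg] <;> norm_num
  · convert l23 using 1
    funext m; fin_cases m <;> simp [Z4.r, ev, cp, sg] <;> norm_num

theorem atoms2e {K : Set (Fin 4 → ℝ)} (h : ∀ i j, i < j → Av K i j false)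
    (h' : ∀ i j, i < j → rL 1 i j = true → (50 / 69 : ℝ) • (ev i + ev j) ∈ K)
    (h'' : ∀ i j, i < j → rS 1 i j = true → (50 / 81 : ℝ) • (ev i - ev j) ∈ K) :
    AtomsIn D2e.At K := by
  have h01 := h 0 1 (by decide)
  have h02 := h 0 2 (by decide)
  have h03 := h 0 3 (by decide)
  have h12 := h 1 2 (by decide)
  have h13 := h 1 3 (by decide)
  have h23 := h 2 3 (by decide)
  unfold Av at h01 h02 h03 h12 h13 h23
  have l02 := h' 0 2 (by decide) (by decide)
  have l03 := h' 0 3 (by decide) (by decide)
  have l12 := h' 1 2 (by decide) (by decide)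
  have l13 := h' 1 3 (by decide) (by decide)
  have l23 := h' 2 3 (by decide) (by decide)
  have s01 := h'' 0 1 (by decide) (by decide)
  intro A hA
  simp only [D2e.At, List.mem_cons, List.not_mem_nil, or_false] at hA
  rcases hA with rfl | rfl | rfl | rfl | rfl | rfl | rfl
  all_goals refine ⟨by norm_num, ?_⟩
  · convert h01 using 1
    funext m; fin_cases m <;> simp [Z4.r, ev, cp, sg] <;> norm_num
  · convert l02 using 1
    funext m; fin_cases m <;> simp [Z4.r, ev, cp, sg] <;> norm_num
  · convert l03 using 1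
    funext m; fin_cases m <;> simp [Z4.r, ev, cp, sg] <;> norm_num
  · convert l12 using 1
    funext m; fin_cases m <;> simp [Z4.r, ev, cp, sg] <;> norm_num
  · convert l13 using 1
    funext m; fin_cases m <;> simp [Z4.r, ev, cp, sg] <;> norm_num
  · convert l23 using 1
    funext m; fin_cases m <;> simp [Z4.r, ev, cp, sg] <;> norm_num
  · convert s01 using 1
    funext m; fin_cases m <;> simp [Z4.r, ev, cp, sg] <;> norm_num

theorem atoms2V {K : Set (Fin 4 → ℝ)} (h : ∀ i j, i < j → Av K i j false)
    (h' : ∀ i j, i < j → rL 2 i j = true → (50 / 69 : ℝ) • (ev i + ev j) ∈ K)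
    (h'' : ∀ i j, i < j → rS 2 i j = true → (50 / 81 : ℝ) • (ev i - ev j) ∈ K) :
    AtomsIn D2V.At K := by
  have h01 := h 0 1 (by decide)
  have h02 := h 0 2 (by decide)
  have h03 := h 0 3 (by decide)
  have h12 := h 1 2 (by decide)
  have h13 := h 1 3 (by decide)
  have h23 := h 2 3 (by decide)
  unfold Av at h01 h02 h03 h12 h13 h23
  have l03 := h' 0 3 (by decide) (by decide)
  have l12 := h' 1 2 (by decide) (by decide)
  have l13 := h' 1 3 (by decide) (by decide)
  have l23 := h' 2 3 (by decide) (by decide)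
  have s01 := h'' 0 1 (by decide) (by decide)
  have s02 := h'' 0 2 (by decide) (by decide)
  intro A hA
  simp only [D2V.At, List.mem_cons, List.not_mem_nil, or_false] at hA
  rcases hA with rfl | rfl | rfl | rfl | rfl | rfl | rfl | rfl
  all_goals refine ⟨by norm_num, ?_⟩
  · convert h01 using 1
    funext m; fin_cases m <;> simp [Z4.r, ev, cp, sg] <;> norm_num
  · convert h02 using 1
    funext m; fin_cases m <;> simp [Z4.r, ev, cp, sg] <;> norm_num
  · convert l03 using 1
    funext m; fin_cases m <;> simp [Z4.r, ev, cp, sg] <;> norm_num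
  · convert l12 using 1
    funext m; fin_cases m <;> simp [Z4.r, ev, cp, sg] <;> norm_num
  · convert l13 using 1
    funext m; fin_cases m <;> simp [Z4.r, ev, cp, sg] <;> norm_num
  · convert l23 using 1
    funext m; fin_cases m <;> simp [Z4.r, ev, cp, sg] <;> norm_num
  · convert s01 using 1
    funext m; fin_cases m <;> simp [Z4.r, ev, cp, sg] <;> norm_num
  · convert s02 using 1
    funext m; fin_cases m <;> simp [Z4.r, ev, cp, sg] <;> norm_num

theorem atoms2h {K : Set (Fin 4 → ℝ)} (h : ∀ i j, i < j → Av K i j false)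
    (h' : ∀ i j, i < j → rL 3 i j = true → (50 / 69 : ℝ) • (ev i + ev j) ∈ K)
    (h'' : ∀ i j, i < j → rS 3 i j = true → (50 / 81 : ℝ) • (ev i - ev j) ∈ K) :
    AtomsIn D2h.At K := by
  have h01 := h 0 1 (by decide)
  have h02 := h 0 2 (by decide)
  have h03 := h 0 3 (by decide)
  have h12 := h 1 2 (by decide)
  have h13 := h 1 3 (by decide)
  have h23 := h 2 3 (by decide)
  unfold Av at h01 h02 h03 h12 h13 h23
  have l02 := h' 0 2 (by decide) (by decide)
  have l03 := h' 0 3 (by decide) (by decide)
  have l12 := h' 1 2 (by decide) (by decide)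
  have l13 := h' 1 3 (by decide) (by decide)
  have s01 := h'' 0 1 (by decide) (by decide)
  have s23 := h'' 2 3 (by decide) (by decide)
  intro A hA
  simp only [D2h.At, List.mem_cons, List.not_mem_nil, or_false] at hA
  rcases hA with rfl | rfl | rfl | rfl | rfl | rfl | rfl | rfl
  all_goals refine ⟨by norm_num, ?_⟩
  · convert h01 using 1
    funext m; fin_cases m <;> simp [Z4.r, ev, cp, sg] <;> norm_num
  · convert l02 using 1
    funext m; fin_cases m <;> simp [Z4.r, ev, cp, sg] <;> norm_num
  · convert l03 using 1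
    funext m; fin_cases m <;> simp [Z4.r, ev, cp, sg] <;> norm_num
  · convert l12 using 1
    funext m; fin_cases m <;> simp [Z4.r, ev, cp, sg] <;> norm_num
  · convert l13 using 1
    funext m; fin_cases m <;> simp [Z4.r, ev, cp, sg] <;> norm_num
  · convert h23 using 1
    funext m; fin_cases m <;> simp [Z4.r, ev, cp, sg] <;> norm_num
  · convert s01 using 1
    funext m; fin_cases m <;> simp [Z4.r, ev, cp, sg] <;> norm_num
  · convert s23 using 1
    funext m; fin_cases m <;> simp [Z4.r, ev, cp, sg] <;> norm_num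

theorem atoms2S {K : Set (Fin 4 → ℝ)} (h : ∀ i j, i < j → Av K i j false)
    (h' : ∀ i j, i < j → rL 4 i j = true → (50 / 69 : ℝ) • (ev i + ev j) ∈ K)
    (h'' : ∀ i j, i < j → rS 4 i j = true → (50 / 81 : ℝ) • (ev i - ev j) ∈ K) :
    AtomsIn D2S.At K := by
  have h01 := h 0 1 (by decide)
  have h02 := h 0 2 (by decide)
  have h03 := h 0 3 (by decide)
  have h12 := h 1 2 (by decide)
  have h13 := h 1 3 (by decide)
  have h23 := h 2 3 (by decide)
  unfold Av at h01 h02 h03 h12 h13 h23
  have l12 := h' 1 2 (by decide) (by decide)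
  have l13 := h' 1 3 (by decide) (by decide)
  have l23 := h' 2 3 (by decide) (by decide)
  have s01 := h'' 0 1 (by decide) (by decide)
  have s02 := h'' 0 2 (by decide) (by decide)
  have s03 := h'' 0 3 (by decide) (by decide)
  intro A hA
  simp only [D2S.At, List.mem_cons, List.not_mem_nil, or_false] at hA
  rcases hA with rfl | rfl | rfl | rfl | rfl | rfl | rfl | rfl | rfl
  all_goals refine ⟨by norm_num, ?_⟩
  · convert h01 using 1
    funext m; fin_cases m <;> simp [Z4.r, ev, cp, sg] <;> norm_num
  · convert h02 using 1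
    funext m; fin_cases m <;> simp [Z4.r, ev, cp, sg] <;> norm_num
  · convert h03 using 1
    funext m; fin_cases m <;> simp [Z4.r, ev, cp, sg] <;> norm_num
  · convert l12 using 1
    funext m; fin_cases m <;> simp [Z4.r, ev, cp, sg] <;> norm_num
  · convert l13 using 1
    funext m; fin_cases m <;> simp [Z4.r, ev, cp, sg] <;> norm_num
  · convert l23 using 1
    funext m; fin_cases m <;> simp [Z4.r, ev, cp, sg] <;> norm_num
  · convert s01 using 1
    funext m; fin_cases m <;> simp [Z4.r, ev, cp, sg] <;> norm_num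
  · convert s02 using 1
    funext m; fin_cases m <;> simp [Z4.r, ev, cp, sg] <;> norm_num
  · convert s03 using 1
    funext m; fin_cases m <;> simp [Z4.r, ev, cp, sg] <;> norm_num

theorem atoms2T {K : Set (Fin 4 → ℝ)} (h : ∀ i j, i < j → Av K i j false)
    (h' : ∀ i j, i < j → rL 5 i j = true → (50 / 69 : ℝ) • (ev i + ev j) ∈ K)
    (h'' : ∀ i j, i < j → rS 5 i j = true → (50 / 81 : ℝ) • (ev i - ev j) ∈ K) :
    AtomsIn D2T.At K := by
  have h01 := h 0 1 (by decide)
  have h02 := h 0 2 (by decide)
  have h03 := h 0 3 (by decide)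
  have h12 := h 1 2 (by decide)
  have h13 := h 1 3 (by decide)
  have h23 := h 2 3 (by decide)
  unfold Av at h01 h02 h03 h12 h13 h23
  have l03 := h' 0 3 (by decide) (by decide)
  have l13 := h' 1 3 (by decide) (by decide)
  have l23 := h' 2 3 (by decide) (by decide)
  have s01 := h'' 0 1 (by decide) (by decide)
  have s02 := h'' 0 2 (by decide) (by decide)
  have s12 := h'' 1 2 (by decide) (by decide)
  intro A hA
  simp only [D2T.At, List.mem_cons, List.not_mem_nil, or_false] at hA
  rcases hA with rfl | rfl | rfl | rfl | rfl | rfl | rfl | rfl | rfl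
  all_goals refine ⟨by norm_num, ?_⟩
  · convert h01 using 1
    funext m; fin_cases m <;> simp [Z4.r, ev, cp, sg] <;> norm_num
  · convert h02 using 1
    funext m; fin_cases m <;> simp [Z4.r, ev, cp, sg] <;> norm_num
  · convert l03 using 1
    funext m; fin_cases m <;> simp [Z4.r, ev, cp, sg] <;> norm_num
  · convert h12 using 1
    funext m; fin_cases m <;> simp [Z4.r, ev, cp, sg] <;> norm_num
  · convert l13 using 1
    funext m; fin_cases m <;> simp [Z4.r, ev, cp, sg] <;> norm_num
  · convert l23 using 1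
    funext m; fin_cases m <;> simp [Z4.r, ev, cp, sg] <;> norm_num
  · convert s01 using 1
    funext m; fin_cases m <;> simp [Z4.r, ev, cp, sg] <;> norm_num
  · convert s02 using 1
    funext m; fin_cases m <;> simp [Z4.r, ev, cp, sg] <;> norm_num
  · convert s12 using 1
    funext m; fin_cases m <;> simp [Z4.r, ev, cp, sg] <;> norm_num

theorem atoms2P {K : Set (Fin 4 → ℝ)} (h : ∀ i j, i < j → Av K i j false)
    (h' : ∀ i j, i < j → rL 6 i j = true → (50 / 69 : ℝ) • (ev i + ev j) ∈ K)
    (h'' : ∀ i j, i < j → rS 6 i j = true → (50 / 81 : ℝ) • (ev i - ev j) ∈ K) :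
    AtomsIn D2P.At K := by
  have h01 := h 0 1 (by decide)
  have h02 := h 0 2 (by decide)
  have h03 := h 0 3 (by decide)
  have h12 := h 1 2 (by decide)
  have h13 := h 1 3 (by decide)
  have h23 := h 2 3 (by decide)
  unfold Av at h01 h02 h03 h12 h13 h23
  have l03 := h' 0 3 (by decide) (by decide)
  have l12 := h' 1 2 (by decide) (by decide)
  have l23 := h' 2 3 (by decide) (by decide)
  have s01 := h'' 0 1 (by decide) (by decide)
  have s02 := h'' 0 2 (by decide) (by decide)
  have s13 := h'' 1 3 (by decide) (by decide)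
  intro A hA
  simp only [D2P.At, List.mem_cons, List.not_mem_nil, or_false] at hA
  rcases hA with rfl | rfl | rfl | rfl | rfl | rfl | rfl | rfl | rfl
  all_goals refine ⟨by norm_num, ?_⟩
  · convert h01 using 1
    funext m; fin_cases m <;> simp [Z4.r, ev, cp, sg] <;> norm_num
  · convert h02 using 1
    funext m; fin_cases m <;> simp [Z4.r, ev, cp, sg] <;> norm_num
  · convert l03 using 1
    funext m; fin_cases m <;> simp [Z4.r, ev, cp, sg] <;> norm_num
  · convert l12 using 1
    funext m; fin_cases m <;> simp [Z4.r, ev, cp, sg] <;> norm_num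
  · convert h13 using 1
    funext m; fin_cases m <;> simp [Z4.r, ev, cp, sg] <;> norm_num
  · convert l23 using 1
    funext m; fin_cases m <;> simp [Z4.r, ev, cp, sg] <;> norm_num
  · convert s01 using 1
    funext m; fin_cases m <;> simp [Z4.r, ev, cp, sg] <;> norm_num
  · convert s02 using 1
    funext m; fin_cases m <;> simp [Z4.r, ev, cp, sg] <;> norm_num
  · convert s13 using 1
    funext m; fin_cases m <;> simp [Z4.r, ev, cp, sg] <;> norm_num

theorem atoms2Q {K : Set (Fin 4 → ℝ)} (h : ∀ i j, i < j → Av K i j false)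
    (h' : ∀ i j, i < j → rL 7 i j = true → (50 / 69 : ℝ) • (ev i + ev j) ∈ K)
    (h'' : ∀ i j, i < j → rS 7 i j = true → (50 / 81 : ℝ) • (ev i - ev j) ∈ K) :
    AtomsIn D2Q.At K := by
  have h01 := h 0 1 (by decide)
  have h02 := h 0 2 (by decide)
  have h03 := h 0 3 (by decide)
  have h12 := h 1 2 (by decide)
  have h13 := h 1 3 (by decide)
  have h23 := h 2 3 (by decide)
  unfold Av at h01 h02 h03 h12 h13 h23
  have s01 := h'' 0 1 (by decide) (by decide)
  have s12 := h'' 1 2 (by decide) (by decide)
  have s23 := h'' 2 3 (by decide) (by decide)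
  have s03 := h'' 0 3 (by decide) (by decide)
  intro A hA
  simp only [D2Q.At, List.mem_cons, List.not_mem_nil, or_false] at hA
  rcases hA with rfl | rfl | rfl | rfl | rfl | rfl | rfl | rfl | rfl | rfl
  all_goals refine ⟨by norm_num, ?_⟩
  · convert h01 using 1
    funext m; fin_cases m <;> simp [Z4.r, ev, cp, sg] <;> norm_num
  · convert h02 using 1
    funext m; fin_cases m <;> simp [Z4.r, ev, cp, sg] <;> norm_num
  · convert h03 using 1
    funext m; fin_cases m <;> simp [Z4.r, ev, cp, sg] <;> norm_num
  · convert h12 using 1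
    funext m; fin_cases m <;> simp [Z4.r, ev, cp, sg] <;> norm_num
  · convert h13 using 1
    funext m; fin_cases m <;> simp [Z4.r, ev, cp, sg] <;> norm_num
  · convert h23 using 1
    funext m; fin_cases m <;> simp [Z4.r, ev, cp, sg] <;> norm_num
  · convert s01 using 1
    funext m; fin_cases m <;> simp [Z4.r, ev, cp, sg] <;> norm_num
  · convert s03 using 1
    funext m; fin_cases m <;> simp [Z4.r, ev, cp, sg] <;> norm_num
  · convert s12 using 1
    funext m; fin_cases m <;> simp [Z4.r, ev, cp, sg] <;> norm_num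
  · convert s23 using 1
    funext m; fin_cases m <;> simp [Z4.r, ev, cp, sg] <;> norm_num

theorem atoms2W {K : Set (Fin 4 → ℝ)} (h : ∀ i j, i < j → Av K i j false)
    (h' : ∀ i j, i < j → rL 8 i j = true → (50 / 69 : ℝ) • (ev i + ev j) ∈ K)
    (h'' : ∀ i j, i < j → rS 8 i j = true → (50 / 81 : ℝ) • (ev i - ev j) ∈ K) :
    AtomsIn D2W.At K := by
  have h01 := h 0 1 (by decide)
  have h02 := h 0 2 (by decide)
  have h03 := h 0 3 (by decide)
  have h12 := h 1 2 (by decide)
  have h13 := h 1 3 (by decide)
  have h23 := h 2 3 (by decide)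
  unfold Av at h01 h02 h03 h12 h13 h23
  have l13 := h' 1 3 (by decide) (by decide)
  have l23 := h' 2 3 (by decide) (by decide)
  have s01 := h'' 0 1 (by decide) (by decide)
  have s02 := h'' 0 2 (by decide) (by decide)
  have s03 := h'' 0 3 (by decide) (by decide)
  have s12 := h'' 1 2 (by decide) (by decide)
  intro A hA
  simp only [D2W.At, List.mem_cons, List.not_mem_nil, or_false] at hA
  rcases hA with rfl | rfl | rfl | rfl | rfl | rfl | rfl | rfl | rfl | rfl
  all_goals refine ⟨by norm_num, ?_⟩
  · convert h01 using 1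
    funext m; fin_cases m <;> simp [Z4.r, ev, cp, sg] <;> norm_num
  · convert h02 using 1
    funext m; fin_cases m <;> simp [Z4.r, ev, cp, sg] <;> norm_num
  · convert h03 using 1
    funext m; fin_cases m <;> simp [Z4.r, ev, cp, sg] <;> norm_num
  · convert h12 using 1
    funext m; fin_cases m <;> simp [Z4.r, ev, cp, sg] <;> norm_num
  · convert l13 using 1
    funext m; fin_cases m <;> simp [Z4.r, ev, cp, sg] <;> norm_num
  · convert l23 using 1
    funext m; fin_cases m <;> simp [Z4.r, ev, cp, sg] <;> norm_num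
  · convert s01 using 1
    funext m; fin_cases m <;> simp [Z4.r, ev, cp, sg] <;> norm_num
  · convert s02 using 1
    funext m; fin_cases m <;> simp [Z4.r, ev, cp, sg] <;> norm_num
  · convert s03 using 1
    funext m; fin_cases m <;> simp [Z4.r, ev, cp, sg] <;> norm_num
  · convert s12 using 1
    funext m; fin_cases m <;> simp [Z4.r, ev, cp, sg] <;> norm_num

theorem lights34 {K : Set (Fin 4 → ℝ)} (h : Basic K) (hd : Diag K) : Lights 34 K := by
  apply normalise h hd
  intro K' c hc h' hd' hav
  interval_cases c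
  · apply normalise0 h' hd' (fun i j hij => hav i j hij)
    · intro K'' h3 h4
      exact D0a.lights h3 (atoms0a h4)
    · intro K'' h3 h4 h5
      exact D0b.lights h3 (atoms0b h4 h5)
  · exact D1.lights h' (atoms1 hav)
  · apply normalise2 h' hd' (fun i j hij => hav i j hij)
    intro K'' c hc h3 h4 h5 h6
    interval_cases c
    · exact D2c.lights h3 (atoms2c h4 h5 h6)
    · exact D2e.lights h3 (atoms2e h4 h5 h6)
    · exact D2V.lights h3 (atoms2V h4 h5 h6)
    · exact D2h.lights h3 (atoms2h h4 h5 h6)
    · exact D2S.lights h3 (atoms2S h4 h5 h6)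
    · exact D2T.lights h3 (atoms2T h4 h5 h6)
    · exact D2P.lights h3 (atoms2P h4 h5 h6)
    · exact D2Q.lights h3 (atoms2Q h4 h5 h6)
    · exact D2W.lights h3 (atoms2W h4 h5 h6)

theorem covN34 {K : Set (Fin 4 → ℝ)} (hK : Convex ℝ K) (hc : IsCompact K)
    (hi : (interior K).Nonempty) (hs : ∀ x ∈ K, -x ∈ K) : CovN 34 K := by
  apply covN_of_SNF (by norm_num) 34 _ hK hc hi hs
  intro K' h
  obtain ⟨S, hS, hl⟩ := lights34 (basic_of_SNF h) (diag_of_SNF h)
  exact covN_of_lit_symm (by norm_num) h 34 S hS hl

end Pool.Agent.Y512.S4
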