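import Mathlib
import Pool.Agent.Y512.S4.Classes
import Pool.Agent.Y512.S4.C0
import Pool.Agent.Y512.S4.C1
import Pool.Agent.Y512.S4.C2

set_option autoImplicit false

/-!
# Symmetric convex bodies in dimension four are covered by `36` translates of the interior
-/

namespace Pool.Agent.Y512.S4

open Set Topology

theorem atoms0 {K : Set (Fin 4 → ℝ)} (h : ∀ i j, i < j → Av K i j (cp 0 i j)) :
    AtomsIn C0.At K := by
  have h01 := h 0 1 (by decide)
  have h02 := h 0 2 (by decide)
  have h03 := h 0 3 (by decide)
  have h12 := h 1 2 (by decide)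
  have h13 := h 1 3 (by decide)
  have h23 := h 2 3 (by decide)
  unfold Av at h01 h02 h03 h12 h13 h23
  intro A hA
  simp only [C0.At, List.mem_cons, List.not_mem_nil, or_false] at hA
  rcases hA with rfl | rfl | rfl | rfl | rfl | rfl
  all_goals refine ⟨by norm_num, ?_⟩
  · convert h01 using 1
    funext m; fin_cases m <;> simp [Z4.r, ev, cp, sg] <;> norm_num
  · convert h02 using 1
    funext m; fin_cases m <;> simp [Z4.r, ev, cp, sg] <;> norm_num
  · convert h03 using 1
    funext m; fin_cases m <;> simp [Z4.r, ev, cp, sg] <;> norm_num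
  · convert h12 using 1
    funext m; fin_cases m <;> simp [Z4.r, ev, cp, sg] <;> norm_num
  · convert h13 using 1
    funext m; fin_cases m <;> simp [Z4.r, ev, cp, sg] <;> norm_num
  · convert h23 using 1
    funext m; fin_cases m <;> simp [Z4.r, ev, cp, sg] <;> norm_num

theorem atoms1 {K : Set (Fin 4 → ℝ)} (h : ∀ i j, i < j → Av K i j (cp 1 i j)) :
    AtomsIn C1.At K := by
  have h01 := h 0 1 (by decide)
  have h02 := h 0 2 (by decide)
  have h03 := h 0 3 (by decide)
  have h12 := h 1 2 (by decide)
  have h13 := h 1 3 (by decide)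
  have h23 := h 2 3 (by decide)
  unfold Av at h01 h02 h03 h12 h13 h23
  intro A hA
  simp only [C1.At, List.mem_cons, List.not_mem_nil, or_false] at hA
  rcases hA with rfl | rfl | rfl | rfl | rfl | rfl
  all_goals refine ⟨by norm_num, ?_⟩
  · convert h01 using 1
    funext m; fin_cases m <;> simp [Z4.r, ev, cp, sg] <;> norm_num
  · convert h02 using 1
    funext m; fin_cases m <;> simp [Z4.r, ev, cp, sg] <;> norm_num
  · convert h03 using 1
    funext m; fin_cases m <;> simp [Z4.r, ev, cp, sg] <;> norm_num
  · convert h12 using 1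
    funext m; fin_cases m <;> simp [Z4.r, ev, cp, sg] <;> norm_num
  · convert h13 using 1
    funext m; fin_cases m <;> simp [Z4.r, ev, cp, sg] <;> norm_num
  · convert h23 using 1
    funext m; fin_cases m <;> simp [Z4.r, ev, cp, sg] <;> norm_num

theorem atoms2 {K : Set (Fin 4 → ℝ)} (h : ∀ i j, i < j → Av K i j (cp 2 i j)) :
    AtomsIn C2.At K := by
  have h01 := h 0 1 (by decide)
  have h02 := h 0 2 (by decide)
  have h03 := h 0 3 (by decide)
  have h12 := h 1 2 (by decide)
  have h13 := h 1 3 (by decide)
  have h23 := h 2 3 (by decide)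
  unfold Av at h01 h02 h03 h12 h13 h23
  intro A hA
  simp only [C2.At, List.mem_cons, List.not_mem_nil, or_false] at hA
  rcases hA with rfl | rfl | rfl | rfl | rfl | rfl
  all_goals refine ⟨by norm_num, ?_⟩
  · convert h01 using 1
    funext m; fin_cases m <;> simp [Z4.r, ev, cp, sg] <;> norm_num
  · convert h02 using 1
    funext m; fin_cases m <;> simp [Z4.r, ev, cp, sg] <;> norm_num
  · convert h03 using 1
    funext m; fin_cases m <;> simp [Z4.r, ev, cp, sg] <;> norm_num
  · convert h12 using 1
    funext m; fin_cases m <;> simp [Z4.r, ev, cp, sg] <;> norm_num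
  · convert h13 using 1
    funext m; fin_cases m <;> simp [Z4.r, ev, cp, sg] <;> norm_num
  · convert h23 using 1
    funext m; fin_cases m <;> simp [Z4.r, ev, cp, sg] <;> norm_num

theorem lights36 {K : Set (Fin 4 → ℝ)} (h : Basic K) (hd : Diag K) : Lights 36 K := by
  apply normalise h hd
  intro K' c hc h' _ hav
  interval_cases c
  · exact C0.lights h' (atoms0 hav)
  · exact C1.lights h' (atoms1 hav)
  · exact C2.lights h' (atoms2 hav)

theorem covN36 {K : Set (Fin 4 → ℝ)} (hK : Convex ℝ K) (hc : IsCompact K)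
    (hi : (interior K).Nonempty) (hs : ∀ x ∈ K, -x ∈ K) : CovN 36 K := by
  apply covN_of_SNF (by norm_num) 36 _ hK hc hi hs
  intro K' h
  obtain ⟨S, hS, hl⟩ := lights36 (basic_of_SNF h) (diag_of_SNF h)
  exact covN_of_lit_symm (by norm_num) h 36 S hS hl

end Pool.Agent.Y512.S4
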